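import Pool.Agent.Lib.TWII.PropH
import Pool.Agent.Lib.TWJ.NoHit0
import Pool.Agent.Lib.TWM.G3

/-!
# TANK W, line (II): the additive critical element of a floor which is hit

`y` of transcendental type over `F`, radius `ρ`, `K` the closure of `F(y)`; `f` over `F`, `f(y)` a
limit of `K ^ p` up to `ν`, some jet of `f` at `y` of order `l ≠ 0`, `p ∣ l`, is not in
`K ^ p + O(> ν - l ρ)`. Then a Hasse derivative of `f` at `y` is `B(y)` modulo `K ^ p` and small
elements, `B` an additive polynomial plus a constant, with a critical top coefficient (`soc`).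
-/

set_option autoImplicit false

open Polynomial

namespace Pool.Agent.TWII

open Pool.Agent.H15JM (RVal)
open Pool.Agent.LU1 (VPos adj)
open Pool.Agent.D2 (Ctx0)
open Pool.Agent.D2P (hen clI mem_clI adj_le mem_adj_self)
open Pool.Agent.TWM (PI Gt Lim TL cadj Cld ge_pow ge_natCast ge_sub_comm hasse_mem_PI
  eval_mem C_mem_PI X_mem_PI le_cadj self_mem_cadj PI_mono le_algc)

universe u

variable {k Ω : Type u} [Field k] [Field Ω] [Algebra k Ω] {v : RVal Ω}
  {F : IntermediateField k Ω} {y : Ω} {ρ ν : ℝ} {f : Polynomial Ω}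

/-- `x` is a limit of `F ^ p` up to `c`. -/
def LP (p : ℕ) (v : RVal Ω) (F : IntermediateField k Ω) (c : ℝ) (x : Ω) : Prop :=
  ∀ ε : ℝ, 0 < ε → ∃ g ∈ F, v.Ge (c - ε) (x - g ^ p)

section LP

variable {p : ℕ} [hp : Fact p.Prime] [CharP Ω p] {c : ℝ}

theorem LP.sub {x w : Ω} (hx : LP p v F c x) (hw : LP p v F c w) : LP p v F c (x - w) := by
  intro ε hε
  obtain ⟨g, hg, h1⟩ := hx ε hε
  obtain ⟨g', hg', h2⟩ := hw ε hε
  refine ⟨g - g', sub_mem hg hg', ?_⟩
  rw [sub_pow_char, sub_sub_sub_comm]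
  exact h1.sub h2

omit hp [CharP Ω p] in
theorem LP.of_pg {x : Ω} (hx : PG p v F c x) : LP p v F c x := by
  intro ε hε
  obtain ⟨g, hg, h1⟩ := hx
  exact ⟨g, hg, h1.ge.mono (by linarith)⟩

/-- Multiplication by an integer. -/
theorem PG.natCast_mul {x : Ω} (hx : PG p v F c x) (n : ℕ) : PG p v F c ((n : Ω) * x) := by
  obtain ⟨g, hg, h1⟩ := hx
  have e : ((n : Ω)) ^ p = n := by
    have := map_natCast (frobenius Ω p) n
    rwa [frobenius_def] at this
  refine ⟨n * g, mul_mem (natCast_mem _ _) hg, ?_⟩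
  rw [_root_.mul_pow, e, ← mul_sub, mul_comm]
  have := h1.mul_ge (ge_natCast v n)
  rwa [add_zero] at this

theorem PG.of_natCast_mul {x : Ω} {n : ℕ} (hn : ¬ p ∣ n) (hx : PG p v F c ((n : Ω) * x)) :
    PG p v F c x := by
  obtain ⟨m, hm⟩ : ∃ m : ℕ, (m : Ω) * (n : Ω) = 1 := by
    have h1 : Nat.Coprime n p := ((Nat.Prime.coprime_iff_not_dvd hp.out).2 hn).symm
    obtain ⟨m, -, hm⟩ := Nat.exists_mul_mod_eq_one_of_coprime h1 hp.out.one_lt
    refine ⟨m, ?_⟩
    have h2 : ((n * m : ℕ) : Ω) = ((1 : ℕ) : Ω) :=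
      (CharP.natCast_eq_natCast' Ω p (by
        change n * m % p = 1 % p
        rw [hm, Nat.mod_eq_of_lt hp.out.one_lt]))
    push_cast at h2
    rw [mul_comm]
    exact h2
  have h3 := hx.natCast_mul m
  rwa [← mul_assoc, hm, one_mul] at h3

end LP

/-! ### The jets of a limit of `p`-th powers -/

variable [IsAlgClosed Ω]

/-- Bounds of the jets. -/
theorem TL.jet_ge (hy : TL v F y ρ) (hf : f ∈ PI F) {b : ℝ} (h : v.Ge b (f.eval y)) (l : ℕ) :
    v.Ge (b - l * ρ) ((taylor y f).coeff l) := by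
  intro h0
  have hf0 : f ≠ 0 := by
    rintro rfl
    rw [map_zero, coeff_zero] at h0
    exact h0 rfl
  have h1 := hy.nonstrict hf l h0
  have h2 := h (hy.eval_ne (PI_mono (le_algc F) hf) hf0)
  linarith

theorem TL.jet_gt (hy : TL v F y ρ) (hf : f ∈ PI F) {b : ℝ} (h : v.Ge b (f.eval y)) {l : ℕ}
    (hl : 1 ≤ l) : Gt v (b - l * ρ) ((taylor y f).coeff l) := by
  intro h0
  have hf0 : f ≠ 0 := by
    rintro rfl
    rw [map_zero, coeff_zero] at h0
    exact h0 rfl
  have h1 := hy.strict (PI_mono (le_algc F) hf) hf0 hl h0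
  have h2 := h (hy.eval_ne (PI_mono (le_algc F) hf) hf0)
  linarith

section

variable (p : ℕ) [hp : Fact p.Prime] [CharP Ω p]

/-- The polynomial form of `LP`. -/
theorem LP.poly (hy : TL v F y ρ) (h : LP p v (cadj v F y) ν (f.eval y))
    {ε : ℝ} (hε : 0 < ε) : ∃ G ∈ PI F, v.Ge (ν - ε) ((f - G ^ p).eval y) := by
  obtain ⟨g, hg, h1⟩ := h ε hε
  have hp0 : (0 : ℝ) < p := by exact_mod_cast hp.out.pos
  obtain ⟨G, hG, h2⟩ := hy.dense hg ((ν - ε) / p)
  refine ⟨G, hG, ?_⟩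
  have e : (f - G ^ p).eval y = (f.eval y - g ^ p) + (g - G.eval y) ^ p := by
    rw [eval_sub, eval_pow, sub_pow_char]
    ring
  rw [e]
  refine h1.add ?_
  have h3 := ge_pow h2 p
  rwa [mul_div_cancel₀ _ hp0.ne'] at h3

/-- J1. -/
theorem LP.jet (hy : TL v F y ρ) (hf : f ∈ PI F) (h : LP p v (cadj v F y) ν (f.eval y)) {l : ℕ}
    (hl : p ∣ l) : LP p v (cadj v F y) (ν - l * ρ) ((taylor y f).coeff l) := by
  intro ε hε
  obtain ⟨G, hG, h1⟩ := LP.poly p hy h hε
  refine ⟨(taylor y G).coeff (l / p), ?_, ?_⟩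
  · rw [taylor_coeff]
    exact TWM.le_clI _ (TWM.eval_mem_adj (hasse_mem_PI hG _) y)
  · have h2 := TL.jet_ge hy (sub_mem hf (pow_mem hG p)) h1 l
    rw [map_sub, coeff_sub, taylor_pow, TWJ.coeff_pow_char p, if_pos hl] at h2
    exact h2.mono (by linarith)

/-- J2. -/
theorem LP.jet_prime (hy : TL v F y ρ) (hf : f ∈ PI F) (h : LP p v (cadj v F y) ν (f.eval y))
    {l : ℕ} (hl : ¬ p ∣ l) : v.Ge (ν - l * ρ) ((taylor y f).coeff l) := by
  intro h0
  refine le_of_forall_pos_le_add fun ε hε => ?_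
  obtain ⟨G, hG, h1⟩ := LP.poly p hy h hε
  have h2 := TL.jet_ge hy (sub_mem hf (pow_mem hG p)) h1 l
  rw [map_sub, coeff_sub, taylor_pow, TWJ.coeff_pow_char p, if_neg hl, sub_zero] at h2
  have := h2 h0
  linarith

/-- J3. -/
theorem LP.jet_prime_gt (hy : TL v F y ρ) (hf : f ∈ PI F)
    (h : LP p v (cadj v F y) ν (f.eval y)) {l : ℕ} (hl : ¬ p ∣ l) (hl2 : 2 ≤ l) :
    Gt v (ν - l * ρ) ((taylor y f).coeff l) := by
  obtain ⟨m, rfl⟩ : ∃ m, l = m + 1 := ⟨l - 1, by omega⟩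
  have hp1 : ¬ p ∣ 1 := fun h5 => hp.out.one_lt.not_ge (Nat.le_of_dvd one_pos h5)
  have h1 := LP.jet_prime p hy hf h hp1
  rw [taylor_coeff] at h1
  have h2 := TL.jet_gt hy (hasse_mem_PI hf 1) h1 (l := m) (by omega)
  rw [TWJ.jet_jet, Nat.choose_symm_add, Nat.choose_one_right] at h2
  have hn := TWM.val_natCast (v := v) (Ω := Ω) p hl
  intro h0
  have h3 := h2 (mul_ne_zero hn.1 h0)
  rw [v.map_mul hn.1 h0, hn.2, zero_add] at h3
  push_cast at h3 ⊢
  linarith

omit [IsAlgClosed Ω] in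
/-- **No hit**: the value is in `F` modulo `K ^ p` and small elements. -/
theorem PG.base (hy : TL v F y ρ) (hf : f ∈ PI F)
    (h1 : ∀ l : ℕ, ¬ p ∣ l → Gt v (ν - l * ρ) ((taylor y f).coeff l))
    (h2 : ∀ l : ℕ, p ∣ l → l ≠ 0 → PG p v (cadj v F y) (ν - l * ρ) ((taylor y f).coeff l)) :
    ∃ a ∈ F, PG p v (cadj v F y) ν (f.eval y - a) := by
  classical
  choose! w hwK hwl using h2
  set S : Finset ℕ := Finset.Icc 1 f.natDegree with hS
  set b : ℕ → Ω := fun l => if p ∣ l then (taylor y f).coeff l - w l ^ p else (taylor y f).coeff l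
    with hb
  have hbl : ∀ l ∈ S, Gt v (ν - l * ρ) (b l) := by
    intro l hl
    have hl1 := (Finset.mem_Icc.1 hl).1
    by_cases hpl : p ∣ l
    · rw [hb]
      simp only [if_pos hpl]
      exact hwl l hpl (by omega)
    · rw [hb]
      simp only [if_neg hpl]
      exact h1 l hpl
  obtain ⟨δ, hδ, hn⟩ := TWJ.exists_near_terms b S (fun l hl => (Finset.mem_Icc.1 hl).1) hbl
  obtain ⟨ψ, hψF, hψ⟩ := hy.lim δ hδ
  set G : Ω := ∑ l ∈ S, if p ∣ l then w l * (ψ - y) ^ (l / p) else 0 with hG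
  have hGK : G ∈ cadj v F y := by
    refine sum_mem fun l hl => ?_
    split_ifs with hpl
    · exact mul_mem (hwK l hpl (by have := (Finset.mem_Icc.1 hl).1; omega))
        (pow_mem (sub_mem (le_cadj v F y hψF) (self_mem_cadj v F y)) _)
    · exact zero_mem _
  have hGp : G ^ p = ∑ l ∈ S, if p ∣ l then w l ^ p * (ψ - y) ^ l else 0 := by
    rw [hG, sum_pow_char]
    refine Finset.sum_congr rfl fun l _ => ?_
    split_ifs with hpl
    · rw [_root_.mul_pow, ← pow_mul, Nat.div_mul_cancel hpl]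
    · exact zero_pow hp.out.ne_zero
  have e : f.eval ψ - f.eval y = ∑ l ∈ S, (taylor y f).coeff l * (ψ - y) ^ l := by
    have e1 : f.eval ψ = (taylor y f).eval (ψ - y) := by rw [taylor_eval, sub_add_cancel]
    rw [e1, eval_eq_sum_range, natDegree_taylor, Finset.sum_range_eq_add_Ico _ (Nat.succ_pos _),
      taylor_coeff_zero, pow_zero, mul_one, add_sub_cancel_left]
    rfl
  have herr : Gt v ν (f.eval ψ - f.eval y - G ^ p) := by
    rw [e, hGp, ← Finset.sum_sub_distrib]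
    refine TWM.Gt.sum _ _ fun l hl => ?_
    have h2 := hn (ψ - y) (TWM.ge_sub_comm hψ) l hl
    have e2 : (taylor y f).coeff l * (ψ - y) ^ l -
        (if p ∣ l then w l ^ p * (ψ - y) ^ l else 0) = b l * (ψ - y) ^ l := by
      rw [hb]
      by_cases hpl : p ∣ l
      · simp only [if_pos hpl]
        ring
      · simp only [if_neg hpl, sub_zero]
    rw [e2]
    exact h2
  refine ⟨f.eval ψ, eval_mem hf hψF, -G, neg_mem hGK, ?_⟩
  have e3 : f.eval y - f.eval ψ - (-G) ^ p = -(f.eval ψ - f.eval y - G ^ p) := by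
    have := add_pow_char (p := p) G (-G)
    rw [add_neg_cancel, zero_pow hp.out.ne_zero] at this
    rw [(neg_eq_of_add_eq_zero_right this.symm).symm]
    ring
  rw [e3]
  exact herr.neg

omit [IsAlgClosed Ω] in
/-- a multiple of `p`, not a power, has a binomial coefficient prime to `p`, with lower index
divisible by `p` -/
theorem exists_choose' {l : ℕ} (hpl : p ∣ l) (hl0 : l ≠ 0) (h : ∀ i, l ≠ p ^ i) :
    ∃ i j : ℕ, p ∣ i ∧ i ≠ 0 ∧ j ≠ 0 ∧ i + j = l ∧ ¬ p ∣ (i + j).choose i := by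
  obtain ⟨m, rfl⟩ := hpl
  have hm0 : m ≠ 0 := by
    rintro rfl
    exact hl0 (mul_zero _)
  obtain ⟨c, hc0, hcm, hc⟩ := TWM.exists_choose hp.out (l := m) (by omega) (fun i hi => h (i + 1)
    (by rw [hi, pow_succ']))
  have hp0 := hp.out.pos
  refine ⟨p * c, p * (m - c), ⟨c, rfl⟩, (Nat.mul_pos hp0 hc0).ne',
    (Nat.mul_pos hp0 (by omega)).ne', by rw [← mul_add]; congr 1; omega, ?_⟩
  have h1 := Choose.choose_modEq_choose_mod_mul_choose_div_nat (n := p * c + p * (m - c))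
    (k := p * c) (p := p)
  have e1 : p * c + p * (m - c) = p * m := by rw [← mul_add]; congr 1; omega
  rw [e1, Nat.mul_mod_right, Nat.mul_mod_right, Nat.mul_div_cancel_left _ hp0,
    Nat.mul_div_cancel_left _ hp0, Nat.choose_self, one_mul] at h1
  rw [e1]
  intro hd
  exact hc ((h1.dvd_iff dvd_rfl).1 hd)

/-- **The additive critical element.** -/
theorem soc (hy : TL v F y ρ) (hf : f ∈ PI F) (hlim : LP p v (cadj v F y) ν (f.eval y))
    (hhit : ∃ l : ℕ, p ∣ l ∧ l ≠ 0 ∧ ¬ PG p v (cadj v F y) (ν - l * ρ) ((taylor y f).coeff l)) :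
    ∃ (m s : ℕ) (e a₀ : Ω) (A : ℕ → Ω), p ∣ m ∧ e ∈ F ∧ a₀ ∈ F ∧ (∀ i, A i ∈ F) ∧
      v.Ge (ν - m * ρ - ρ) e ∧
      (∀ i, LP p v F (ν - m * ρ - (p ^ (i + 1) : ℕ) * ρ) (A i)) ∧
      ¬ PG p v (cadj v F y) (ν - m * ρ - (p ^ (s + 1) : ℕ) * ρ) (A s) ∧
      PG p v (cadj v F y) (ν - m * ρ) ((hasseDeriv m f).eval y -
        (a₀ + e * y + ∑ i ∈ Finset.range (s + 1), A i * y ^ p ^ (i + 1))) ∧
      ∀ ε : ℝ, 0 < ε → ∃ δ : ℝ, 0 < δ ∧ ∀ θ ∈ F, v.Ge (ρ - δ) (y - θ) → ∃ g ∈ F,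
        v.Ge (ν - m * ρ - ε)
          (a₀ + e * θ + ∑ i ∈ Finset.range (s + 1), A i * θ ^ p ^ (i + 1) - g ^ p) := by
  classical
  have hp0 := hp.out.pos
  have hp1 : ¬ p ∣ 1 := fun h5 => hp.out.one_lt.not_ge (Nat.le_of_dvd one_pos h5)
  set K := cadj v F y with hK
  -- the largest `m` with a hit
  let H : ℕ → Prop := fun m => ∃ l : ℕ, p ∣ l ∧ l ≠ 0 ∧
    ¬ PG p v K (ν - m * ρ - l * ρ) ((taylor y (hasseDeriv m f)).coeff l)
  have hH0 : H 0 := by
    obtain ⟨l, h1, h2, h3⟩ := hhit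
    refine ⟨l, h1, h2, ?_⟩
    rwa [hasseDeriv_zero, LinearMap.id_apply, Nat.cast_zero, zero_mul, sub_zero]
  have hHb : ∀ m, H m → m ≤ f.natDegree := by
    rintro m ⟨l, -, -, h3⟩
    by_contra hlt
    apply h3
    rw [hasseDeriv_eq_zero_of_lt_natDegree f m (by omega), map_zero, coeff_zero]
    exact PG.of_gt TWM.Gt.zero
  obtain ⟨m, hm, hmax⟩ : ∃ m, H m ∧ ∀ m', m < m' → ¬ H m' := by
    refine ⟨Nat.findGreatest H f.natDegree, Nat.findGreatest_spec (Nat.zero_le _) hH0,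
      fun m' hm' h1 => ?_⟩
    have := Nat.le_findGreatest (hHb m' h1) h1
    omega
  set f' := hasseDeriv m f with hf'
  have hf'm : f' ∈ PI F := hasse_mem_PI hf m
  set ν' := ν - m * ρ with hν'
  have hjet : ∀ l, (taylor y f').coeff l = (((l + m).choose l : ℕ) : Ω) *
      (taylor y f).coeff (l + m) := fun l => TWJ.jet_jet f y m l
  -- `p` divides `m`
  have hpm : p ∣ m := by
    by_contra hpm
    obtain ⟨l, h1, h2, h3⟩ := hm
    apply h3
    have h4 := LP.jet_prime p hy hf hlim hpm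
    rw [taylor_coeff] at h4
    exact PG.of_gt (TL.jet_gt hy hf'm h4 (by omega))
  have hlim' : LP p v K ν' (f'.eval y) := by
    have := LP.jet p hy hf hlim hpm
    rwa [taylor_coeff] at this
  -- the jets of the jets are not hit
  have hjj : ∀ j : ℕ, 1 ≤ j → ∀ l : ℕ, p ∣ l → l ≠ 0 → PG p v K (ν' - j * ρ - l * ρ)
      ((taylor y (hasseDeriv j f')).coeff l) := by
    intro j hj l hpl hl0
    have h1 := hmax (m + j) (by omega)
    have h2 : PG p v K (ν - (m + j : ℕ) * ρ - l * ρ)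
        ((taylor y (hasseDeriv (m + j) f)).coeff l) := by
      by_contra h3
      exact h1 ⟨l, hpl, hl0, h3⟩
    have e : hasseDeriv j f' = (m + j).choose j • hasseDeriv (m + j) f := by
      have := LinearMap.congr_fun (hasseDeriv_comp (R := Ω) j m) f
      rw [add_comm j m] at this
      simpa using this
    have h3 := h2.natCast_mul ((m + j).choose j)
    have e2 : (taylor y (hasseDeriv j f')).coeff l = (((m + j).choose j : ℕ) : Ω) *
        (taylor y (hasseDeriv (m + j) f)).coeff l := by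
      rw [e, map_nsmul, coeff_smul, nsmul_eq_mul]
    rw [e2]
    refine h3.mono (le_of_eq ?_)
    rw [hν']
    push_cast
    ring
  -- the jets which are not of order a power of `p`
  have hnp : ∀ l : ℕ, p ∣ l → l ≠ 0 → (∀ i, l ≠ p ^ i) →
      PG p v K (ν' - l * ρ) ((taylor y f').coeff l) := by
    intro l hpl hl0 hl
    obtain ⟨i, j, h1, h2, h3, h4, h5⟩ := exists_choose' p hpl hl0 hl
    have h6 := hjj j (by omega) i h1 h2
    rw [TWJ.jet_jet, h4] at h6
    rw [h4] at h5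
    refine (PG.of_natCast_mul h5 h6).mono (le_of_eq ?_)
    rw [← h4]
    push_cast
    ring
  -- the jets of order a power of `p`
  have hpow : ∀ i : ℕ, ∃ a ∈ F, PG p v K (ν' - (p ^ (i + 1) : ℕ) * ρ)
      ((taylor y f').coeff (p ^ (i + 1)) - a) := by
    intro i
    have hpi : 1 ≤ p ^ (i + 1) := Nat.one_le_pow _ _ hp0
    have hppi : p ∣ p ^ (i + 1) := dvd_pow_self p (by omega)
    have h1 := PG.base p hy (hasse_mem_PI hf'm (p ^ (i + 1)))
      (ν := ν' - (p ^ (i + 1) : ℕ) * ρ) ?_ (hjj _ hpi)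
    · rwa [← taylor_coeff] at h1
    · intro l hpl
      have hl0 : l ≠ 0 := by
        rintro rfl
        exact hpl (dvd_zero p)
      rw [TWJ.jet_jet, mul_comm (((l + p ^ (i + 1)).choose l : ℕ) : Ω)]
      have hpl' : ¬ p ∣ l + p ^ (i + 1) := fun h => hpl ((Nat.dvd_add_iff_left hppi).2 h)
      have h2 := LP.jet_prime_gt p hy hf'm hlim' hpl' (by omega)
      have h3 := h2.mul_ge (ge_natCast v ((l + p ^ (i + 1)).choose l))
      refine h3.mono (le_of_eq ?_)
      push_cast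
      ring
  choose A hAF hA using hpow
  -- the top
  obtain ⟨l, hpl, hl0, hl⟩ := hm
  have hlp : ∃ i, l = p ^ (i + 1) := by
    by_contra hno
    push Not at hno
    refine hl (hnp l hpl hl0 fun i hi => ?_)
    rcases i with _ | i
    · rw [pow_zero] at hi
      exact hp1 (hi ▸ hpl)
    · exact hno i hi
  obtain ⟨i₀, rfl⟩ := hlp
  let T : ℕ → Prop := fun i => ¬ PG p v K (ν' - (p ^ (i + 1) : ℕ) * ρ)
    ((taylor y f').coeff (p ^ (i + 1)))
  have hTb : ∀ i, T i → i ≤ f'.natDegree := by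
    intro i hi
    by_contra hlt
    apply hi
    rw [coeff_eq_zero_of_natDegree_lt (by
      rw [natDegree_taylor]
      have : i + 1 < p ^ (i + 1) := Nat.lt_pow_self hp.out.one_lt
      omega)]
    exact PG.of_gt TWM.Gt.zero
  obtain ⟨s, hs, hsmax⟩ : ∃ s, T s ∧ ∀ i, s < i → ¬ T i := by
    refine ⟨Nat.findGreatest T f'.natDegree, Nat.findGreatest_spec (hTb i₀ hl) hl,
      fun i hi h1 => ?_⟩
    have := Nat.le_findGreatest (hTb i h1) h1
    omega
  -- the linear coefficient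
  obtain ⟨e, heF, hege, he⟩ : ∃ e ∈ F, v.Ge (ν' - ρ) e ∧
      Gt v (ν' - ρ) ((taylor y f').coeff 1 - e) := by
    have h1 := LP.jet_prime p hy hf'm hlim' hp1
    rw [Nat.cast_one, one_mul] at h1
    by_cases h0 : (taylor y f').coeff 1 = 0
    · refine ⟨0, zero_mem _, RVal.Ge.zero, ?_⟩
      rw [h0, sub_zero]
      exact TWM.Gt.zero
    · have hmem : (taylor y f').coeff 1 ∈ K := by
        rw [taylor_coeff]
        exact TWM.le_clI _ (TWM.eval_mem_adj (hasse_mem_PI hf'm _) y)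
      obtain ⟨e, he, h2⟩ := (TWM.TL.imm hy).imm _ hmem h0
      have h3 := h1 h0
      have h4 : Gt v (ν' - ρ) ((taylor y f').coeff 1 - e) := h2.mono h3
      refine ⟨e, he, ?_, h4⟩
      have h5 := h1.sub h4.ge
      rwa [sub_sub_cancel] at h5
  -- the remainder
  set c : ℕ → Ω := fun i => if i = 0 then e else A (i - 1) with hc
  have hcF : ∀ i, c i ∈ F := by
    intro i
    rw [hc]
    dsimp only
    split_ifs
    exacts [heF, hAF _]
  set Q : Polynomial Ω := TWM.addP p (s + 2) c with hQ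
  have hQm : Q ∈ PI F := TWM.addP_mem hcF
  have hQe : ∀ x : Ω, Q.eval x = e * x + ∑ i ∈ Finset.range (s + 1), A i * x ^ p ^ (i + 1) := by
    intro x
    rw [hQ, TWM.addP_eval, Finset.sum_range_succ']
    simp only [hc, if_true, pow_zero, pow_one, Nat.add_sub_cancel, Nat.succ_ne_zero, if_false]
    rw [add_comm]
  have hQj : ∀ l : ℕ, 1 ≤ l → (taylor y Q).coeff l =
      ∑ i ∈ Finset.range (s + 2), if l = p ^ i then c i else 0 := fun l hl =>
    TWM.coeff_taylor_addP p (s + 2) c y hl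
  have hQ1 : (taylor y Q).coeff 1 = e := by
    have h1 := TWM.coeff_taylor_addP_pow p (s + 2) c y 0
    rw [pow_zero, if_pos (by omega)] at h1
    rw [hQ, h1, hc]
    simp
  have hQi : ∀ i : ℕ, (taylor y Q).coeff (p ^ (i + 1)) = if i < s + 1 then A i else 0 := by
    intro i
    have h1 := TWM.coeff_taylor_addP_pow p (s + 2) c y (i + 1)
    rw [hQ, h1, hc]
    simp only [Nat.succ_ne_zero, if_false, Nat.add_sub_cancel]
    by_cases h2 : i < s + 1
    · rw [if_pos h2, if_pos (by omega)]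
    · rw [if_neg h2, if_neg (by omega)]
  have hQ0 : ∀ l : ℕ, 1 ≤ l → (∀ i, l ≠ p ^ i) → (taylor y Q).coeff l = 0 := by
    intro l hl h1
    rw [hQj l hl]
    exact Finset.sum_eq_zero fun i _ => if_neg (h1 i)
  obtain ⟨a₀, ha₀, hB⟩ := PG.base p hy (sub_mem hf'm hQm) (ν := ν') (by
    intro l hpl
    have hl0 : l ≠ 0 := by
      rintro rfl
      exact hpl (dvd_zero p)
    rw [map_sub, coeff_sub]
    rcases eq_or_ne l 1 with rfl | hl1
    · rw [hQ1, Nat.cast_one, one_mul]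
      exact he
    · rw [hQ0 l (by omega) (fun i hi => by
        rcases i with _ | i
        · exact hl1 (by rw [hi, pow_zero])
        · exact hpl (by rw [hi]; exact dvd_pow_self p (by omega))), sub_zero]
      exact LP.jet_prime_gt p hy hf'm hlim' hpl (by omega)) (by
    intro l hpl hl0
    rw [map_sub, coeff_sub]
    by_cases h1 : ∃ i, l = p ^ (i + 1)
    · obtain ⟨i, rfl⟩ := h1
      rw [hQi]
      split_ifs with h2
      · exact hA i
      · rw [sub_zero]
        by_contra h3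
        exact hsmax i (by omega) h3
    · push Not at h1
      have h2 : ∀ i, l ≠ p ^ i := by
        intro i hi
        rcases i with _ | i
        · rw [pow_zero] at hi
          exact hp1 (hi ▸ hpl)
        · exact h1 i hi
      rw [hQ0 l (by omega) h2, sub_zero]
      exact hnp l hpl hl0 h2)
  -- the coefficients are limits of `p`-th powers
  have hAK : ∀ i, LP p v K (ν' - (p ^ (i + 1) : ℕ) * ρ) (A i) := by
    intro i
    have h1 := LP.jet p hy hf'm hlim' (l := p ^ (i + 1)) (dvd_pow_self p (by omega))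
    have h2 := h1.sub (LP.of_pg (hA i))
    rwa [sub_sub_cancel] at h2
  have hAL : ∀ i, LP p v F (ν' - (p ^ (i + 1) : ℕ) * ρ) (A i) := by
    intro i ε hε
    obtain ⟨g, hg, h1⟩ := hAK i (ε / 2) (by linarith)
    obtain ⟨g', hg', h2⟩ := TWJ.TL.base_pow p hy (hAF i) hg
      (c := ν' - (p ^ (i + 1) : ℕ) * ρ - ε) (TWM.Gt.of_ge h1 (by linarith))
    exact ⟨g', hg', h2.ge⟩
  have hBe : (f' - Q).eval y - a₀ = f'.eval y - (a₀ + e * y +
      ∑ i ∈ Finset.range (s + 1), A i * y ^ p ^ (i + 1)) := by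
    rw [eval_sub, hQe]
    ring
  rw [hBe] at hB
  refine ⟨m, s, e, a₀, A, hpm, heF, ha₀, hAF, hege, hAL, ?_, hB, ?_⟩
  · intro h1
    apply hs
    have h2 := (hA s).add h1
    rwa [sub_add_cancel] at h2
  · intro ε hε
    -- `B(y)` is a limit
    have hlB : LP p v K ν' ((C a₀ + Q).eval y) := by
      have h1 := hlim'.sub (LP.of_pg hB)
      have e1 : f'.eval y - (f'.eval y - (a₀ + e * y +
          ∑ i ∈ Finset.range (s + 1), A i * y ^ p ^ (i + 1))) = (C a₀ + Q).eval y := by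
        rw [eval_add, eval_C, hQe]
        ring
      rwa [e1] at h1
    obtain ⟨G, hG, h2⟩ := LP.poly p hy hlB hε
    obtain ⟨δ, hδ, h3⟩ := hy.near0 (sub_mem (add_mem (C_mem_PI ha₀) hQm) (pow_mem hG p) :
      C a₀ + Q - G ^ p ∈ PI F)
    refine ⟨δ, hδ, fun θ hθ hyθ => ⟨G.eval θ, eval_mem hG hθ, ?_⟩⟩
    obtain ⟨h4, h5⟩ := h3 θ hyθ
    have e2 : (C a₀ + Q - G ^ p).eval θ = a₀ + e * θ +
        ∑ i ∈ Finset.range (s + 1), A i * θ ^ p ^ (i + 1) - G.eval θ ^ p := by
      rw [eval_sub, eval_add, eval_C, hQe, eval_pow]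
      ring
    rw [← e2]
    intro h6
    rw [h5]
    refine h2 fun h7 => h6 ?_
    -- a polynomial vanishing at `y` is zero
    have h8 : C a₀ + Q - G ^ p = 0 := by
      by_contra h9
      exact hy.eval_ne (PI_mono (le_algc F)
        (sub_mem (add_mem (C_mem_PI ha₀) hQm) (pow_mem hG p))) h9 h7
    rw [h8, eval_zero]

end

end Pool.Agent.TWII
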