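import Pool.Agent.Lib.TWII.PropHV
import Pool.Agent.Lib.TWII.Soc

/-!
# TANK W, line (II): a floor which is hit has finite shape along a strict arc of its base

* `Nr.sharp`: along a strict arc the bounds of the jets up to every `ε` are sharp;
* `fin_shape`: `y` of transcendental type over `F`, `f(y)` a limit of `K ^ p`, some jet of `f` at
  `y` of order divisible by `p` not in `K ^ p + O(>)`: finitely many visible jets of `y` along every
  strict arc of `F`;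
* `fin_shape'`: the same for an element of the closure of `F(y)`.
-/

set_option autoImplicit false

open Polynomial Finset

namespace Pool.Agent.TWII

open Pool.Agent.H15JM (RVal)
open Pool.Agent.TWM
open Pool.Agent.TWLM (HSd Oi Arc)

universe u

variable {k Ω : Type u} [Field k] [Field Ω] [Algebra k Ω] {v : RVal Ω}
  {F : IntermediateField k Ω} {σ : ℝ} {Φ : ℕ → Ω → Ω}

/-- Sharp bounds along a strict arc. -/
theorem Nr.sharp (hΦ : Arc v F σ Φ) {ρ : ℝ} {u : Ω} (hu : Lim v F ρ u) {l : ℕ} (hl : l ≠ 0)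
    (h : ∀ ε : ℝ, 0 < ε → Nr v F ρ u fun θ => v.Ge (ρ - l * σ - ε) (Φ l θ)) :
    Nr v F ρ u fun θ => v.Ge (ρ - l * σ) (Φ l θ) := by
  obtain ⟨m, hm, h1⟩ := hΦ.str l hl
  refine ⟨(l * σ - m) / 2, by linarith, fun θ hθ h2 h0 => ?_⟩
  refine le_of_forall_pos_le_add fun ε hε => ?_
  obtain ⟨θ', hθ', h3, h4⟩ := ((h ε hε).and (Nr.near (half_pos (sub_pos.2 hm)))).exists hu
  have h5 : v.Ge (ρ - l * σ) (Φ l (θ - θ')) := by
    refine (h1 _ (sub_mem hθ hθ') (ρ - (l * σ - m) / 2) ?_).mono (by linarith)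
    have e1 : θ - θ' = (u - θ') - (u - θ) := by ring
    rw [e1]
    exact h4.sub h2
  have h6 : v.Ge (ρ - l * σ - ε) (Φ l θ) := by
    have e1 : Φ l θ = Φ l (θ - θ') + Φ l θ' := by
      rw [hΦ.sub l hθ hθ']
      ring
    rw [e1]
    exact (h5.mono (by linarith)).add h3
  have := h6 h0
  linarith

theorem PG.of_le {p : ℕ} {F' : IntermediateField k Ω} (h : F ≤ F') {c : ℝ} {x : Ω}
    (hx : PG p v F c x) : PG p v F' c x := by
  obtain ⟨g, hg, h1⟩ := hx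
  exact ⟨g, h hg, h1⟩

variable (p : ℕ) [hp : Fact p.Prime] [CharP Ω p]

/-- **A floor which is hit has finite shape along the strict arcs.** -/
theorem fin_shape [IsAlgClosed Ω] (hΦ : Arc v F σ Φ) (ho : Oi v F σ Φ) {y : Ω} {ρ ν : ℝ}
    {f : Polynomial Ω} (hy : TL v F y ρ) (hf : f ∈ PI F)
    (hlim : LP p v (cadj v F y) ν (f.eval y))
    (hhit : ∃ l : ℕ, p ∣ l ∧ l ≠ 0 ∧
      ¬ PG p v (cadj v F y) (ν - l * ρ) ((taylor y f).coeff l)) :
    ∃ L : ℕ, ∀ l : ℕ, L < l → Nr v F ρ y fun θ => v.Ge (ρ - l * σ) (Φ l θ) := by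
  obtain ⟨m, s, e, a₀, A, -, he, ha₀, hA, hge, hA0, hs, -, hB⟩ := soc p hy hf hlim hhit
  have hs' : ¬ PG p v F (ν - m * ρ - (p ^ (s + 1) : ℕ) * ρ) (A s) := fun h =>
    hs (h.of_le (le_cadj v F y))
  have hde : ∀ n : ℕ, n ≠ 0 → Gt v (ν - m * ρ - ρ - n * σ) (Φ n e) := by
    intro n hn
    obtain ⟨w, -, hw0, h1⟩ := null_of_arc p hΦ he (j := 0) (τ := ν - m * ρ - ρ)
      (fun ε hε => ⟨0, F.zero_mem, fun _ => rfl, by
        rw [zero_pow hp.out.ne_zero, sub_zero]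
        exact hge.mono (by linarith)⟩) n hn
    rwa [hw0 rfl, zero_pow hp.out.ne_zero, sub_zero] at h1
  have hdA : ∀ i ≤ s, ∀ n : ℕ, n ≠ 0 →
      PG p v F (ν - m * ρ - (p ^ (i + 1) : ℕ) * ρ - n * σ) (Φ n (A i)) := by
    intro i _ n hn
    obtain ⟨w, hw, -, h1⟩ := null_of_arc p hΦ (hA i) (j := 1)
      (τ := ν - m * ρ - (p ^ (i + 1) : ℕ) * ρ)
      (fun ε hε => by
        obtain ⟨w, hw, h1⟩ := hA0 i ε hε
        exact ⟨w, hw, fun h => absurd h one_ne_zero, h1⟩) n hn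
    exact ⟨w, hw, h1⟩
  obtain ⟨L, hL⟩ := propHS p hΦ.toHSd (Wn.of_arc hΦ) ho hy.lim s he ha₀ A (fun i _ => hA i) hge
    (fun i _ => hA0 i) hde hdA hs' hB
  exact ⟨L, fun l hl => Nr.sharp hΦ hy.lim (by omega) (hL l hl)⟩

/-- The same for an element of the closure of `F(y)`, the Hasse derivatives of `TWLM.exists_fbr`. -/
theorem fin_shape' [IsAlgClosed Ω] (hΦ : Arc v F σ Φ) (ho : Oi v F σ Φ) {y : Ω} {ρ ν : ℝ}
    (hy : TL v F y ρ) {D : ℕ → Ω → Ω}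
    (hD : ∀ j : ℕ, ∀ x ∈ cadj v F y, ∀ b : ℝ, ∃ f ∈ PI F, v.Ge b (x - f.eval y) ∧
      v.Ge b (D j x - (hasseDeriv j f).eval y)) {a : Ω} (ha : a ∈ cadj v F y)
    (hlim : LP p v (cadj v F y) ν a)
    (hhit : ∃ l : ℕ, p ∣ l ∧ l ≠ 0 ∧ ¬ PG p v (cadj v F y) (ν - l * ρ) (D l a)) :
    ∃ L : ℕ, ∀ l : ℕ, L < l → Nr v F ρ y fun θ => v.Ge (ρ - l * σ) (Φ l θ) := by
  obtain ⟨l, hpl, hl0, hl⟩ := hhit
  obtain ⟨f, hf, h1, h2⟩ := hD l a ha (max ν (ν - l * ρ) + 1)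
  refine fin_shape p hΦ ho hy hf (ν := ν) ?_ ⟨l, hpl, hl0, fun h3 => hl ?_⟩
  · intro ε hε
    obtain ⟨g, hg, h3⟩ := hlim ε hε
    refine ⟨g, hg, ?_⟩
    have e1 : f.eval y - g ^ p = (a - g ^ p) - (a - f.eval y) := by ring
    rw [e1]
    exact h3.sub (h1.mono (by linarith [le_max_left ν (ν - l * ρ)]))
  · have e1 : D l a = (taylor y f).coeff l + (D l a - (hasseDeriv l f).eval y) := by
      rw [taylor_coeff]
      ring
    rw [e1]
    exact h3.add (.of_gt (Gt.of_ge h2 (by linarith [le_max_right ν (ν - l * ρ)])))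

end Pool.Agent.TWII
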