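import Pool.Agent.Lib.TWM.D0

/-!
# TANK W, line (II): strict overconvergent arcs, finite shape (Proposition H)

* `SArc v F D`: `D` is a Hasse-Schmidt derivation of `F` with values in `F`, of norm `< 0` in each
  positive degree, overconvergent;
* `propH`: hits force finite shape.
-/

set_option autoImplicit false

open Finset

namespace Pool.Agent.TWII

open Pool.Agent.H15JM (RVal)
open Pool.Agent.D2 (Ctx0)
open Pool.Agent.TWM

universe u

variable {k Ω : Type u} [Field k] [Field Ω] [Algebra k Ω]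

/-- A strict overconvergent Hasse-Schmidt derivation of `F`. -/
structure SArc (v : RVal Ω) (F : IntermediateField k Ω) (D : ℕ → Ω → Ω) : Prop where
  mem : ∀ l, ∀ x ∈ F, D l x ∈ F
  zero : ∀ x ∈ F, D 0 x = x
  add : ∀ l, ∀ x ∈ F, ∀ y ∈ F, D l (x + y) = D l x + D l y
  mul : ∀ l, ∀ x ∈ F, ∀ y ∈ F, D l (x * y) = ∑ ij ∈ antidiagonal l, D ij.1 x * D ij.2 y
  const : ∀ l, l ≠ 0 → ∀ c : k, D l (algebraMap k Ω c) = 0
  strict : ∀ l, l ≠ 0 → ∃ η : ℝ, 0 < η ∧ ∀ x ∈ F, ∀ b, v.Ge b x → v.Ge (b + η) (D l x)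
  ovc : ∀ x ∈ F, ∃ c β : ℝ, 0 < β ∧ ∀ l : ℕ, v.Ge (c + l * β) (D l x)

section Pow

variable (p : ℕ) [hp : Fact p.Prime] [CharP Ω p]

/-- The coefficients of a `p`-th power of a power series. -/
theorem coeff_pow_p (f : PowerSeries Ω) (n : ℕ) :
    PowerSeries.coeff n (f ^ p) = if p ∣ n then (PowerSeries.coeff (n / p) f) ^ p else 0 := by
  have h1 : PowerSeries.coeff n (f ^ p) = (PowerSeries.trunc (n + 1) (f ^ p)).coeff n := by
    rw [PowerSeries.coeff_trunc, if_pos (Nat.lt_succ_self n)]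
  have h2 : ∀ g : Polynomial Ω,
      (g ^ p).coeff n = if p ∣ n then (g.coeff (n / p)) ^ p else 0 := by
    intro g
    rw [← Polynomial.map_frobenius_expand, Polynomial.coeff_map, Polynomial.coeff_expand hp.out.pos]
    split_ifs
    · rfl
    · rw [map_zero]
  rw [h1, ← PowerSeries.trunc_trunc_pow, PowerSeries.coeff_trunc, if_pos (Nat.lt_succ_self n),
    ← Polynomial.coe_pow, Polynomial.coeff_coe, h2, PowerSeries.coeff_trunc,
    if_pos (Nat.lt_succ_of_le (Nat.div_le_self n p))]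

end Pow

namespace SArc

variable {v : RVal Ω} {F : IntermediateField k Ω} {D : ℕ → Ω → Ω} (hD : SArc v F D)
include hD

theorem map_zero' (l : ℕ) : D l 0 = 0 := by
  have h := hD.add l 0 F.zero_mem 0 F.zero_mem
  rw [add_zero] at h
  exact (add_eq_left.1 h.symm)

theorem neg (l : ℕ) {x : Ω} (hx : x ∈ F) : D l (-x) = -D l x := by
  have h := hD.add l x hx (-x) (F.neg_mem hx)
  rw [add_neg_cancel, hD.map_zero'] at h
  exact (neg_eq_of_add_eq_zero_right h.symm).symm

theorem sub (l : ℕ) {x y : Ω} (hx : x ∈ F) (hy : y ∈ F) : D l (x - y) = D l x - D l y := by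
  rw [sub_eq_add_neg, hD.add l x hx (-y) (F.neg_mem hy), hD.neg l hy, ← sub_eq_add_neg]

theorem sum {ι : Type*} (l : ℕ) (S : Finset ι) (f : ι → Ω) (hf : ∀ i ∈ S, f i ∈ F) :
    D l (∑ i ∈ S, f i) = ∑ i ∈ S, D l (f i) := by
  classical
  induction S using Finset.induction_on with
  | empty => simpa using hD.map_zero' l
  | insert a S ha ih =>
    rw [Finset.sum_insert ha, Finset.sum_insert ha,
      hD.add l _ (hf a (Finset.mem_insert_self a S)) _
        (sum_mem fun i hi => hf i (Finset.mem_insert_of_mem hi)),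
      ih fun i hi => hf i (Finset.mem_insert_of_mem hi)]

/-- `D l` has norm `≤ 0`. -/
theorem ge {l : ℕ} {x : Ω} (hx : x ∈ F) {b : ℝ} (h : v.Ge b x) : v.Ge b (D l x) := by
  rcases eq_or_ne l 0 with rfl | hl
  · rwa [hD.zero x hx]
  · obtain ⟨η, hη, h1⟩ := hD.strict l hl
    exact (h1 x hx b h).mono (by linarith)

theorem ser_mul {x y : Ω} (hx : x ∈ F) (hy : y ∈ F) :
    (PowerSeries.mk fun l => D l (x * y)) =
      (PowerSeries.mk fun l => D l x) * PowerSeries.mk fun l => D l y := by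
  ext n
  rw [PowerSeries.coeff_mk, PowerSeries.coeff_mul, hD.mul n x hx y hy]
  refine Finset.sum_congr rfl fun ij _ => ?_
  rw [PowerSeries.coeff_mk, PowerSeries.coeff_mk]

theorem one (l : ℕ) (hl : l ≠ 0) : D l 1 = 0 := by
  have := hD.const l hl 1
  rwa [_root_.map_one] at this

theorem ser_pow {x : Ω} (hx : x ∈ F) (m : ℕ) :
    (PowerSeries.mk fun l => D l (x ^ m)) = (PowerSeries.mk fun l => D l x) ^ m := by
  induction m with
  | zero =>
    rw [pow_zero, pow_zero]
    ext n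
    rw [PowerSeries.coeff_mk, PowerSeries.coeff_one]
    split_ifs with h
    · rw [h, hD.zero 1 F.one_mem]
    · exact hD.one n h
  | succ m ih => rw [pow_succ, pow_succ, hD.ser_mul (pow_mem hx m) hx, ih]

variable (p : ℕ) [hp : Fact p.Prime] [CharP Ω p]

theorem pow_p (l : ℕ) {x : Ω} (hx : x ∈ F) :
    D l (x ^ p) = if p ∣ l then (D (l / p) x) ^ p else 0 := by
  have h := congrArg (PowerSeries.coeff l) (hD.ser_pow hx p)
  rw [PowerSeries.coeff_mk, coeff_pow_p, PowerSeries.coeff_mk] at h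
  exact h

theorem pow_pp (i l : ℕ) {x : Ω} (hx : x ∈ F) :
    D l (x ^ p ^ i) = if p ^ i ∣ l then (D (l / p ^ i) x) ^ p ^ i else 0 := by
  induction i generalizing l with
  | zero => simp
  | succ i ih =>
    rw [pow_succ p i, pow_mul, hD.pow_p p l (pow_mem hx _)]
    by_cases h1 : p ∣ l
    · obtain ⟨c, rfl⟩ := h1
      rw [if_pos (dvd_mul_right p c), Nat.mul_div_cancel_left _ hp.out.pos, ih]
      by_cases h2 : p ^ i ∣ c
      · rw [if_pos h2, if_pos, ← pow_mul]
        · rw [mul_comm (p ^ i) p, Nat.mul_div_mul_left _ _ hp.out.pos]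
        · rw [mul_comm (p ^ i) p]
          exact Nat.mul_dvd_mul_left p h2
      · rw [if_neg h2, if_neg, zero_pow hp.out.ne_zero]
        rw [mul_comm (p ^ i) p]
        intro h3
        exact h2 (Nat.dvd_of_mul_dvd_mul_left hp.out.pos h3)
    · rw [if_neg h1, if_neg]
      intro h3
      exact h1 ((Dvd.intro_left _ rfl).trans h3)

end SArc

end Pool.Agent.TWII
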