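import Pool.Agent.Lib.TWII.Arc

/-!
# TANK W, line (II): Proposition H

`F` with a strict overconvergent arc `D`, `u` a limit of `F` up to `0`, an element
`B(u) = a₀ + e u + ∑ A_i u ^ p ^ (i + 1)` which is a limit of `F ^ p` up to `0`, the coefficients
`A_i` are limits of `F ^ p`, the top one is not in `F ^ p + O(>0)`: only finitely many jets of `u`
are visible.
-/

set_option autoImplicit false

open Finset

namespace Pool.Agent.TWII

open Pool.Agent.H15JM (RVal)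
open Pool.Agent.D2 (Ctx0)
open Pool.Agent.TWM

universe u

variable {k Ω : Type u} [Field k] [Field Ω] [Algebra k Ω]

/-- `x` is in `F ^ p + O(> c)`. -/
def PG (p : ℕ) (v : RVal Ω) (F : IntermediateField k Ω) (c : ℝ) (x : Ω) : Prop :=
  ∃ g ∈ F, Gt v c (x - g ^ p)

section PG

variable {p : ℕ} [hp : Fact p.Prime] [CharP Ω p] {v : RVal Ω} {F : IntermediateField k Ω} {c : ℝ}

omit [CharP Ω p] in
theorem PG.of_gt {x : Ω} (h : Gt v c x) : PG p v F c x :=
  ⟨0, F.zero_mem, by rwa [zero_pow hp.out.ne_zero, sub_zero]⟩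

omit hp [CharP Ω p] in
theorem PG.of_pow {g : Ω} (hg : g ∈ F) : PG p v F c (g ^ p) :=
  ⟨g, hg, by rw [sub_self]; exact Gt.zero⟩

theorem PG.add {x y : Ω} (hx : PG p v F c x) (hy : PG p v F c y) : PG p v F c (x + y) := by
  obtain ⟨g, hg, h1⟩ := hx
  obtain ⟨g', hg', h2⟩ := hy
  refine ⟨g + g', F.add_mem hg hg', ?_⟩
  rw [add_pow_char]
  have e : x + y - (g ^ p + g' ^ p) = (x - g ^ p) + (y - g' ^ p) := by ring
  rw [e]
  exact h1.add h2

theorem PG.neg {x : Ω} (hx : PG p v F c x) : PG p v F c (-x) := by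
  obtain ⟨g, hg, h1⟩ := hx
  refine ⟨-g, F.neg_mem hg, ?_⟩
  have e : -x - (-g) ^ p = -(x - g ^ p) := by
    have := add_pow_char (p := p) g (-g)
    rw [add_neg_cancel, zero_pow hp.out.ne_zero] at this
    have h2 : (-g) ^ p = -(g ^ p) := (neg_eq_of_add_eq_zero_right this.symm).symm
    rw [h2]
    ring
  rw [e]
  exact h1.neg

theorem PG.sub {x y : Ω} (hx : PG p v F c x) (hy : PG p v F c y) : PG p v F c (x - y) := by
  rw [sub_eq_add_neg]
  exact hx.add hy.neg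

theorem PG.sum {ι : Type*} (S : Finset ι) (f : ι → Ω) (hf : ∀ i ∈ S, PG p v F c (f i)) :
    PG p v F c (∑ i ∈ S, f i) := by
  classical
  induction S using Finset.induction_on with
  | empty =>
    rw [Finset.sum_empty]
    exact .of_gt Gt.zero
  | insert a S ha ih =>
    rw [Finset.sum_insert ha]
    exact (hf a (Finset.mem_insert_self a S)).add
      (ih fun i hi => hf i (Finset.mem_insert_of_mem hi))

omit hp [CharP Ω p] in
theorem PG.mono {c' : ℝ} {x : Ω} (hx : PG p v F c x) (h : c' ≤ c) : PG p v F c' x := by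
  obtain ⟨g, hg, h1⟩ := hx
  exact ⟨g, hg, h1.mono h⟩

omit hp [CharP Ω p] in
/-- Multiplication by a `p`-th power. -/
theorem PG.mul_pow {b : ℝ} {x w : Ω} (hx : PG p v F c x) (hw : w ∈ F) (hb : v.Ge b (w ^ p)) :
    PG p v F (c + b) (x * w ^ p) := by
  obtain ⟨g, hg, h1⟩ := hx
  refine ⟨g * w, F.mul_mem hg hw, ?_⟩
  have e : x * w ^ p - (g * w) ^ p = (x - g ^ p) * w ^ p := by ring
  rw [e]
  exact h1.mul_ge hb

end PG

theorem ge_pow' {v : RVal Ω} {c : ℝ} {x : Ω} (h : v.Ge c x) (m : ℕ) : v.Ge (m * c) (x ^ m) := by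
  intro h0
  rcases eq_or_ne x 0 with rfl | hx
  · rcases Nat.eq_zero_or_pos m with rfl | hm
    · rw [pow_zero, v.map_one]
      simp
    · exact absurd (zero_pow hm.ne') h0
  · rw [v.map_pow hx]
    exact mul_le_mul_of_nonneg_left (h hx) (Nat.cast_nonneg m)

/-- **Proposition H.** -/
theorem propH (p : ℕ) [hp : Fact p.Prime] [CharP Ω p] {v : RVal Ω} [hk : Fact (Ctx0 k v)]
    {F : IntermediateField k Ω} {D : ℕ → Ω → Ω} (hD : SArc v F D) {u : Ω} (hu : Lim v F 0 u)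
    (s : ℕ) (e : k) {a₀ : Ω} (ha₀ : a₀ ∈ F) (A : ℕ → Ω) (hA : ∀ i ≤ s, A i ∈ F)
    (hA0 : ∀ i ≤ s, ∀ ε : ℝ, 0 < ε → ∃ g ∈ F, v.Ge (-ε) (A i - g ^ p))
    (hs : ∀ g ∈ F, ¬ Gt v 0 (A s - g ^ p))
    (hB : ∀ ε : ℝ, 0 < ε → ∃ δ : ℝ, 0 < δ ∧ ∀ θ ∈ F, v.Ge (-δ) (u - θ) → ∃ g ∈ F,
      v.Ge (-ε) (a₀ + algebraMap k Ω e * θ + ∑ i ∈ range (s + 1), A i * θ ^ p ^ (i + 1) - g ^ p)) :
    ∃ L : ℕ, ∀ l, L < l → ∃ δ : ℝ, 0 < δ ∧ ∀ θ ∈ F, v.Ge (-δ) (u - θ) → v.Ge 0 (D l θ) := by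
  classical
  have hp0 : 0 < p := hp.out.pos
  have hp1 : 1 < p := hp.out.one_lt
  -- depth at each degree
  have hη : ∀ l : ℕ, ∃ η : ℝ, 0 < η ∧ (l ≠ 0 → ∀ x ∈ F, ∀ b, v.Ge b x → v.Ge (b + η) (D l x)) := by
    intro l
    rcases eq_or_ne l 0 with h | h
    · exact ⟨1, one_pos, fun h' => absurd h h'⟩
    · obtain ⟨η, h1, h2⟩ := hD.strict l h
      exact ⟨η, h1, fun _ => h2⟩
  choose η hη0 hη using hη
  have hth : ∀ ε : ℝ, 0 < ε → ∃ θ ∈ F, v.Ge (-ε) (u - θ) := by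
    intro ε hε
    obtain ⟨θ, h1, h2⟩ := hu ε hε
    exact ⟨θ, h1, by rwa [zero_sub] at h2⟩
  -- the chosen points
  choose th hthF hthu using fun l : ℕ => hth (η l / 2) (half_pos (hη0 l))
  -- the gaps
  set g : ℕ → ℝ := fun l => if D l (th l) = 0 then 0 else max 0 (-v (D l (th l))) with hg
  have hg0 : ∀ l, 0 ≤ g l := by
    intro l
    rw [hg]
    dsimp only
    split_ifs
    · exact le_rfl
    · exact le_max_left _ _
  have hgth : ∀ l, v.Ge (-g l) (D l (th l)) := by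
    intro l h0
    rw [hg]
    dsimp only
    rw [if_neg h0]
    linarith [le_max_right 0 (-v (D l (th l)))]
  -- invariance
  have hinv : ∀ l ≠ 0, ∀ θ ∈ F, v.Ge (-(η l / 2)) (u - θ) → Gt v 0 (D l θ - D l (th l)) := by
    intro l hl θ hθ h1
    rw [← hD.sub l hθ (hthF l)]
    have h2 : v.Ge (-(η l / 2)) (θ - th l) := by
      have e1 : θ - th l = (u - th l) - (u - θ) := by ring
      rw [e1]
      exact (hthu l).sub h1
    refine Gt.of_ge (hη l hl _ (F.sub_mem hθ (hthF l)) _ h2) ?_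
    linarith [hη0 l]
  have hgθ : ∀ l ≠ 0, ∀ θ ∈ F, v.Ge (-(η l / 2)) (u - θ) → v.Ge (-g l) (D l θ) := by
    intro l hl θ hθ h1
    have e1 : D l θ = (D l θ - D l (th l)) + D l (th l) := by ring
    rw [e1]
    exact ((hinv l hl θ hθ h1).ge.mono (by linarith [hg0 l])).add (hgth l)
  -- exactness
  have hgex : ∀ l ≠ 0, 0 < g l → ∀ θ ∈ F, v.Ge (-(η l / 2)) (u - θ) →
      D l θ ≠ 0 ∧ v (D l θ) = -g l := by
    intro l hl hgl θ hθ h1
    have h0 : D l (th l) ≠ 0 := by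
      intro h0
      rw [hg] at hgl
      dsimp only at hgl
      rw [if_pos h0] at hgl
      exact lt_irrefl _ hgl
    have h2 : g l = -v (D l (th l)) := by
      have h3 : g l = max 0 (-v (D l (th l))) := by
        rw [hg]
        dsimp only
        rw [if_neg h0]
      rw [h3] at hgl ⊢
      rcases max_choice 0 (-v (D l (th l))) with h4 | h4
      · rw [h4] at hgl
        exact absurd hgl (lt_irrefl _)
      · exact h4
    have h3 : Gt v (v (D l (th l))) (D l (th l) - D l θ) := by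
      have h4 := (hinv l hl θ hθ h1).sub_comm'
      exact h4.mono (by linarith)
    obtain ⟨h4, h5⟩ := Gt.val_eq h0 h3
    exact ⟨h4, by rw [h5]; linarith⟩
  -- the gaps tend to 0
  have hglim : ∀ ε : ℝ, 0 < ε → ∃ L : ℕ, ∀ l, L ≤ l → g l ≤ ε := by
    intro ε hε
    obtain ⟨θ, hθ, h1⟩ := hth ε hε
    obtain ⟨c, β, hβ, h2⟩ := hD.ovc θ hθ
    obtain ⟨L, hL⟩ := exists_nat_gt (-c / β)
    refine ⟨L + 1, fun l hl => ?_⟩
    have hl0 : l ≠ 0 := by omega
    have h3 : v.Ge (-ε) (D l (th l)) := by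
      obtain ⟨θ', hθ', h4⟩ := hth (min ε (η l / 2)) (lt_min hε (half_pos (hη0 l)))
      have h5 : v.Ge (-ε) (D l θ') := by
        have e1 : D l θ' = D l (θ' - θ) + D l θ := by
          rw [hD.sub l hθ' hθ]
          ring
        rw [e1]
        refine (hD.ge (F.sub_mem hθ' hθ) ?_).add ?_
        · have e2 : θ' - θ = (u - θ) - (u - θ') := by ring
          rw [e2]
          exact h1.sub (h4.mono (by linarith [min_le_left ε (η l / 2)]))
        · refine (h2 l).mono ?_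
          have h6 : (L : ℝ) ≤ l := by exact_mod_cast (Nat.le_of_succ_le hl)
          have h7 : -c < L * β := by rwa [div_lt_iff₀ hβ] at hL
          nlinarith
      have e3 : D l (th l) = D l θ' - (D l θ' - D l (th l)) := by ring
      rw [e3]
      refine h5.sub ((hinv l hl0 θ' hθ' (h4.mono ?_)).ge.mono (by linarith))
      linarith [min_le_right ε (η l / 2)]
    rw [hg]
    dsimp only
    split_ifs with h0
    · exact hε.le
    · exact max_le hε.le (by linarith [h3 h0])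
  -- a bound for the values
  obtain ⟨M, hM0, hM⟩ : ∃ M : ℝ, 0 ≤ M ∧ ∀ θ ∈ F, v.Ge (-1) (u - θ) → v.Ge (-M) θ := by
    refine ⟨max 1 (-v u), le_trans zero_le_one (le_max_left _ _), fun θ _ h1 => ?_⟩
    have e1 : θ = u - (u - θ) := by ring
    rw [e1]
    refine RVal.Ge.sub (fun _ => ?_) (h1.mono ?_)
    · linarith [le_max_right 1 (-v u)]
    · linarith [le_max_left 1 (-v u)]
  -- the terms of positive degree in the coefficient
  have hterm : ∀ i ≤ s, ∃ L : ℕ, ∀ l, L ≤ l → ∀ j m : ℕ, j ≠ 0 → j + p ^ (i + 1) * m = l →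
      ∀ θ ∈ F, v.Ge (-1) (u - θ) → (m ≠ 0 → v.Ge (-(η m / 2)) (u - θ)) →
      PG p v F 0 (D j (A i) * (D m θ) ^ p ^ (i + 1)) := by
    intro i hi
    obtain ⟨c, β, hβ, h2⟩ := hD.ovc (A i) (hA i hi)
    -- degrees `≥ J`
    obtain ⟨J, hJ⟩ := exists_nat_gt ((p ^ (i + 1) * M - c) / β)
    rw [div_lt_iff₀ hβ] at hJ
    -- degrees `< J`
    obtain ⟨κ, hκ0, hκ⟩ : ∃ κ : ℝ, 0 < κ ∧ ∀ j < J, κ ≤ η j := by
      rcases Nat.eq_zero_or_pos J with h | h
      · exact ⟨1, one_pos, fun j hj => absurd hj (by omega)⟩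
      · have hne : (range J).Nonempty := ⟨0, mem_range.2 h⟩
        refine ⟨(range J).inf' hne η, ?_, fun j hj => inf'_le _ (mem_range.2 hj)⟩
        rw [Finset.lt_inf'_iff]
        exact fun j _ => hη0 j
    obtain ⟨w, hw, hw1⟩ := hA0 i hi (κ / 2) (half_pos hκ0)
    have hQ : (0 : ℝ) < (p : ℝ) ^ (i + 1) := by positivity
    obtain ⟨L₁, hL₁⟩ := hglim (κ / (4 * (p : ℝ) ^ (i + 1))) (by positivity)
    refine ⟨J + p ^ (i + 1) * (L₁ + 1), fun l hl j m hj hjm θ hθ h3 h4 => ?_⟩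
    have hθM : v.Ge (-M) (D m θ) := hD.ge hθ (hM θ hθ h3)
    by_cases hjJ : j < J
    · -- low degree
      have hm : L₁ < m := by
        by_contra h5
        have h6 : p ^ (i + 1) * m ≤ p ^ (i + 1) * L₁ := Nat.mul_le_mul_left _ (not_lt.1 h5)
        have h7 : p ^ (i + 1) * (L₁ + 1) = p ^ (i + 1) * L₁ + p ^ (i + 1) := by ring
        have h8 : 0 < p ^ (i + 1) := Nat.pow_pos hp0
        omega
      have hm0 : m ≠ 0 := by omega
      have hgm : v.Ge (-(κ / (4 * (p : ℝ) ^ (i + 1)))) (D m θ) :=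
        (hgθ m hm0 θ hθ (h4 hm0)).mono (by linarith [hL₁ m hm.le])
      have e1 : D j (A i) = D j (A i - w ^ p) + D j (w ^ p) := by
        rw [hD.sub j (hA i hi) (pow_mem hw p)]
        ring
      rw [e1, add_mul]
      refine PG.add (.of_gt ?_) ?_
      · have h5 : v.Ge (-(κ / 2) + κ) (D j (A i - w ^ p)) :=
          (hη j hj _ (F.sub_mem (hA i hi) (pow_mem hw p)) _ hw1).mono (by linarith [hκ j hjJ])
        refine Gt.of_ge (h5.mul (ge_pow' hgm (p ^ (i + 1)))) ?_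
        push_cast
        have e2 : (p : ℝ) ^ (i + 1) * -(κ / (4 * (p : ℝ) ^ (i + 1))) = -(κ / 4) := by
          field_simp
        rw [e2]
        linarith
      · rw [hD.pow_p p j hw]
        split_ifs
        · have e3 : (D (j / p) w) ^ p * (D m θ) ^ p ^ (i + 1) =
              (D (j / p) w * (D m θ) ^ p ^ i) ^ p := by
            rw [mul_pow, ← pow_mul, ← pow_succ]
          rw [e3]
          exact .of_pow (F.mul_mem (hD.mem _ _ hw) (pow_mem (hD.mem _ _ hθ) _))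
        · rw [zero_mul]
          exact .of_gt Gt.zero
    · -- high degree
      refine .of_gt (Gt.of_ge ((h2 j).mul (ge_pow' hθM (p ^ (i + 1)))) ?_)
      push_cast
      have h5 : (J : ℝ) ≤ j := by exact_mod_cast not_lt.1 hjJ
      nlinarith
  choose! Lt hLt using hterm
  -- the relation in each large degree
  obtain ⟨c₀, β₀, hβ₀, hov₀⟩ := hD.ovc a₀ ha₀
  obtain ⟨L₀, hL₀⟩ := exists_nat_gt (-c₀ / β₀)
  rw [div_lt_iff₀ hβ₀] at hL₀
  have hR : ∀ l, max (L₀ + 1) ((range (s + 1)).sup Lt) ≤ l → ∃ δ : ℝ, 0 < δ ∧ ∀ θ ∈ F,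
      v.Ge (-δ) (u - θ) → PG p v F 0 (algebraMap k Ω e * D l θ +
        ∑ i ∈ range (s + 1), if p ^ (i + 1) ∣ l then A i * (D (l / p ^ (i + 1)) θ) ^ p ^ (i + 1)
          else 0) := by
    intro l hl
    have hl1 : L₀ + 1 ≤ l := (le_max_left _ _).trans hl
    have hl2 : ∀ i ≤ s, Lt i ≤ l := fun i hi =>
      (Finset.le_sup (f := Lt) (mem_range.2 (Nat.lt_succ_of_le hi))).trans
        ((le_max_right _ _).trans hl)
    have hl0 : l ≠ 0 := by omega
    obtain ⟨δ₁, hδ₁, hB1⟩ := hB (η l / 2) (half_pos (hη0 l))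
    obtain ⟨κ, hκ0, hκ⟩ : ∃ κ : ℝ, 0 < κ ∧ ∀ j ≤ l, κ ≤ η j / 2 := by
      have hne : (range (l + 1)).Nonempty := ⟨0, by simp⟩
      refine ⟨(range (l + 1)).inf' hne fun j => η j / 2, ?_, fun j hj =>
        inf'_le _ (mem_range.2 (Nat.lt_succ_of_le hj))⟩
      rw [Finset.lt_inf'_iff]
      exact fun j _ => half_pos (hη0 j)
    refine ⟨min (min δ₁ κ) 1, lt_min (lt_min hδ₁ hκ0) one_pos, fun θ hθ h1 => ?_⟩
    have hm1 := min_le_left (min δ₁ κ) 1
    have hm2 := min_le_right (min δ₁ κ) 1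
    have hm3 := min_le_left δ₁ κ
    have hm4 := min_le_right δ₁ κ
    obtain ⟨w, hw, hw1⟩ := hB1 θ hθ (h1.mono (by linarith))
    have hθ1 : v.Ge (-1) (u - θ) := h1.mono (by linarith)
    have hθη : ∀ m ≤ l, v.Ge (-(η m / 2)) (u - θ) := fun m hm => h1.mono (by linarith [hκ m hm])
    -- degree `l` of `B(θ)`
    have hsm : ∀ i ∈ range (s + 1), A i * θ ^ p ^ (i + 1) ∈ F := fun i hi =>
      F.mul_mem (hA i (Nat.lt_succ_iff.1 (mem_range.1 hi))) (pow_mem hθ _)
    have hem : algebraMap k Ω e * θ ∈ F := F.mul_mem (F.algebraMap_mem e) hθ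
    have hsumm := sum_mem hsm
    have hDe : D l (algebraMap k Ω e * θ) = algebraMap k Ω e * D l θ := by
      rw [hD.mul l _ (F.algebraMap_mem e) _ hθ, Finset.sum_eq_single (0, l)]
      · rw [hD.zero _ (F.algebraMap_mem e)]
      · intro ij hij hne
        have h2 : ij.1 ≠ 0 := by
          intro h3
          apply hne
          rw [HasAntidiagonal.mem_antidiagonal] at hij
          ext
          · exact h3
          · simp only
            omega
        rw [hD.const _ h2, zero_mul]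
      · intro h2
        exact absurd (HasAntidiagonal.mem_antidiagonal.2 (zero_add l)) h2
    have h2 : PG p v F 0 (D l (a₀ + algebraMap k Ω e * θ +
        ∑ i ∈ range (s + 1), A i * θ ^ p ^ (i + 1))) := by
      set B := a₀ + algebraMap k Ω e * θ + ∑ i ∈ range (s + 1), A i * θ ^ p ^ (i + 1) with hBd
      have hBm : B ∈ F := F.add_mem (F.add_mem ha₀ hem) hsumm
      have e1 : D l B = D l (B - w ^ p) + D l (w ^ p) := by
        rw [hD.sub l hBm (pow_mem hw p)]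
        ring
      rw [e1]
      refine PG.add (.of_gt ?_) ?_
      · refine Gt.of_ge (hη l hl0 _ (F.sub_mem hBm (pow_mem hw p)) _ hw1) ?_
        linarith [hη0 l]
      · rw [hD.pow_p p l hw]
        split_ifs
        · exact .of_pow (hD.mem _ _ hw)
        · exact .of_gt Gt.zero
    rw [hD.add l _ (F.add_mem ha₀ hem) _ hsumm, hD.add l _ ha₀ _ hem, hDe,
      hD.sum l _ _ hsm] at h2
    -- the constant term is small
    have h3 : PG p v F 0 (D l a₀) := by
      refine .of_gt (Gt.of_ge (hov₀ l) ?_)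
      have h6 : (L₀ : ℝ) ≤ l := by exact_mod_cast (Nat.le_of_succ_le hl1)
      nlinarith
    -- the terms
    have h4 : ∀ i ∈ range (s + 1), PG p v F 0 (D l (A i * θ ^ p ^ (i + 1)) -
        if p ^ (i + 1) ∣ l then A i * (D (l / p ^ (i + 1)) θ) ^ p ^ (i + 1) else 0) := by
      intro i hi
      have hi' : i ≤ s := Nat.lt_succ_iff.1 (mem_range.1 hi)
      rw [hD.mul l _ (hA i hi') _ (pow_mem hθ _)]
      have h0l : ((0, l) : ℕ × ℕ) ∈ antidiagonal l := HasAntidiagonal.mem_antidiagonal.2 (zero_add l)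
      rw [← Finset.add_sum_erase _ _ h0l]
      have e2 : D 0 (A i) * D l (θ ^ p ^ (i + 1)) =
          if p ^ (i + 1) ∣ l then A i * (D (l / p ^ (i + 1)) θ) ^ p ^ (i + 1) else 0 := by
        rw [hD.zero _ (hA i hi'), hD.pow_pp p (i + 1) l hθ]
        split_ifs
        · rfl
        · rw [mul_zero]
      rw [e2, add_sub_cancel_left]
      refine .sum _ _ fun ij hij => ?_
      obtain ⟨hne, hij'⟩ := Finset.mem_erase.1 hij
      rw [HasAntidiagonal.mem_antidiagonal] at hij'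
      have hj0 : ij.1 ≠ 0 := by
        intro h3
        apply hne
        ext
        · exact h3
        · simp only
          omega
      rw [hD.pow_pp p (i + 1) ij.2 hθ]
      split_ifs with h5
      · obtain ⟨m, hm⟩ := h5
        rw [hm, Nat.mul_div_cancel_left _ (Nat.pow_pos hp0)]
        have hml : m ≤ l := by
          have : m ≤ p ^ (i + 1) * m := Nat.le_mul_of_pos_left m (Nat.pow_pos hp0)
          omega
        exact hLt i hi' l (hl2 i hi') ij.1 m hj0 (by rw [← hm]; exact hij') θ hθ hθ1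
          fun _ => hθη m hml
      · rw [mul_zero]
        exact .of_gt Gt.zero
    have h5 := (h2.sub h3).sub (PG.sum _ _ h4)
    rw [Finset.sum_sub_distrib] at h5
    have e3 : (D l a₀ + algebraMap k Ω e * D l θ + ∑ i ∈ range (s + 1), D l (A i * θ ^ p ^ (i + 1))
        - D l a₀ - (∑ i ∈ range (s + 1), D l (A i * θ ^ p ^ (i + 1)) -
          ∑ i ∈ range (s + 1), if p ^ (i + 1) ∣ l then
            A i * (D (l / p ^ (i + 1)) θ) ^ p ^ (i + 1) else 0)) =
        algebraMap k Ω e * D l θ + ∑ i ∈ range (s + 1), if p ^ (i + 1) ∣ l then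
            A i * (D (l / p ^ (i + 1)) θ) ^ p ^ (i + 1) else 0 := by ring
    rwa [e3] at h5
  -- the contradiction
  by_contra hcon
  push Not at hcon
  have hbig : ∀ L : ℕ, ∃ l, L < l ∧ 0 < g l := by
    intro L
    obtain ⟨l, hl, h1⟩ := hcon L
    obtain ⟨θ, hθ, h2, h3⟩ := h1 (η l / 2) (half_pos (hη0 l))
    refine ⟨l, hl, ?_⟩
    by_contra h4
    have h5 : g l = 0 := le_antisymm (not_lt.1 h4) (hg0 l)
    have h6 := hgθ l (by omega) θ hθ h2
    rw [h5, neg_zero] at h6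
    exact h3 h6
  -- a maximal gap beyond `L`
  set L := max (L₀ + 1) ((range (s + 1)).sup Lt) with hLdef
  obtain ⟨m₁, hm₁, hgm₁⟩ := hbig L
  obtain ⟨L₂, hL₂⟩ := hglim (g m₁ / 2) (half_pos hgm₁)
  obtain ⟨m, hmL, hgm, hmax⟩ : ∃ m, L < m ∧ 0 < g m ∧ ∀ m', L < m' → g m' ≤ g m := by
    have hne : (Finset.Ioc L (max m₁ L₂)).Nonempty := ⟨m₁, Finset.mem_Ioc.2 ⟨hm₁, le_max_left _ _⟩⟩
    obtain ⟨m, hm, h1⟩ := Finset.exists_max_image _ g hne
    have h2 : g m₁ ≤ g m := h1 m₁ (Finset.mem_Ioc.2 ⟨hm₁, le_max_left _ _⟩)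
    refine ⟨m, (Finset.mem_Ioc.1 hm).1, hgm₁.trans_le h2, fun m' hm' => ?_⟩
    rcases le_or_gt m' (max m₁ L₂) with h3 | h3
    · exact h1 m' (Finset.mem_Ioc.2 ⟨hm', h3⟩)
    · have h4 := hL₂ m' ((le_max_right _ _).trans h3.le)
      linarith
  have hm0 : m ≠ 0 := by omega
  -- degree `Q m`
  set Q := p ^ (s + 1) with hQ
  have hQ0 : 0 < Q := Nat.pow_pos hp0
  have hQp : p ∣ Q := dvd_pow_self p (Nat.succ_ne_zero s)
  have hQ1 : 1 < Q := Nat.one_lt_pow (Nat.succ_ne_zero s) hp1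
  have hlL : L ≤ Q * m := hmL.le.trans (Nat.le_mul_of_pos_left m hQ0)
  obtain ⟨δ, hδ, hRl⟩ := hR (Q * m) hlL
  -- the depth
  have hQR : (1 : ℝ) < Q := by exact_mod_cast hQ1
  obtain ⟨δ', hδ', hδ'η⟩ : ∃ δ' : ℝ, 0 < δ' ∧ ∀ j ≤ Q * m, δ' ≤ η j / 2 := by
    have hne : (range (Q * m + 1)).Nonempty := ⟨0, by simp⟩
    refine ⟨(range (Q * m + 1)).inf' hne fun j => η j / 2, ?_, fun j hj =>
      inf'_le _ (mem_range.2 (Nat.lt_succ_of_le hj))⟩
    rw [Finset.lt_inf'_iff]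
    exact fun j _ => half_pos (hη0 j)
  obtain ⟨θ, hθ, hθu⟩ := hth (min δ δ') (lt_min hδ hδ')
  have hθη : ∀ j ≤ Q * m, v.Ge (-(η j / 2)) (u - θ) := fun j hj =>
    hθu.mono (by linarith [hδ'η j hj, min_le_right δ δ'])
  have h1 := hRl θ hθ (hθu.mono (by linarith [min_le_left δ δ']))
  obtain ⟨hw0, hwv⟩ := hgex m hm0 hgm θ hθ (hθη m (Nat.le_mul_of_pos_left m hQ0))
  set w := D m θ with hw
  have hwF : w ∈ F := hD.mem _ _ hθ
  -- the linear term
  have h2 : PG p v F (-(Q * g m)) (algebraMap k Ω e * D (Q * m) θ) := by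
    refine .of_gt (Gt.of_ge ((hk.out.ge e).mul (hgθ (Q * m) (by positivity) θ hθ
      (hθη _ le_rfl))) ?_)
    have h3 : g (Q * m) ≤ g m := hmax _ (hmL.trans_le (Nat.le_mul_of_pos_left m hQ0))
    nlinarith
  -- the lower terms
  have h3 : ∀ i ∈ range s, PG p v F (-(Q * g m)) (if p ^ (i + 1) ∣ Q * m then
      A i * (D (Q * m / p ^ (i + 1)) θ) ^ p ^ (i + 1) else 0) := by
    intro i hi
    have his : i < s := mem_range.1 hi
    split_ifs
    · have hq : p ^ (i + 1) * p ≤ Q := by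
        rw [← pow_succ]
        exact Nat.pow_le_pow_right hp0 (by omega)
      have hqr : ((p : ℝ) ^ (i + 1)) * 2 ≤ Q := by
        have h4 : p ^ (i + 1) * 2 ≤ Q := (Nat.mul_le_mul_left _ hp1).trans hq
        exact_mod_cast h4
      have hq0 : (0 : ℝ) < (p : ℝ) ^ (i + 1) := by positivity
      have hdiv : Q * m / p ^ (i + 1) = p ^ (s - i) * m := by
        have e1 : Q * m = p ^ (i + 1) * (p ^ (s - i) * m) := by
          rw [← mul_assoc, ← pow_add, hQ]
          congr 2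
          omega
        rw [e1, Nat.mul_div_cancel_left _ (Nat.pow_pos hp0)]
      have hge : m ≤ p ^ (s - i) * m := Nat.le_mul_of_pos_left m (Nat.pow_pos hp0)
      have hle : p ^ (s - i) * m ≤ Q * m := by
        apply Nat.mul_le_mul_right
        rw [hQ]
        exact Nat.pow_le_pow_right hp0 (by omega)
      have h5 : v.Ge (-g m) (D (p ^ (s - i) * m) θ) :=
        (hgθ _ (by positivity) θ hθ (hθη _ hle)).mono
          (by linarith [hmax _ (hmL.trans_le hge)])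
      rw [hdiv]
      have e2 : (D (p ^ (s - i) * m) θ) ^ p ^ (i + 1) = ((D (p ^ (s - i) * m) θ) ^ p ^ i) ^ p := by
        rw [← pow_mul, ← pow_succ]
      obtain ⟨h, hh, hh1⟩ := hA0 i his.le (p ^ (i + 1) * g m / 2) (by positivity)
      have h6 : PG p v F (-(3 / 4 * (p ^ (i + 1) * g m))) (A i) :=
        ⟨h, hh, Gt.of_ge hh1 (by nlinarith)⟩
      have h7 : v.Ge (-(p ^ (i + 1) * g m)) (((D (p ^ (s - i) * m) θ) ^ p ^ i) ^ p) := by
        rw [← e2]
        refine (ge_pow' h5 _).mono ?_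
        push_cast
        linarith
      rw [e2]
      refine (h6.mul_pow (pow_mem (hD.mem _ _ hθ) _) h7).mono ?_
      nlinarith
    · exact .of_gt Gt.zero
  -- the top term
  rw [Finset.sum_range_succ, if_pos (Dvd.intro m rfl), ← hQ, Nat.mul_div_cancel_left _ hQ0] at h1
  have h4 : PG p v F (-(Q * g m)) (A s * w ^ Q) := by
    have h5 := ((h1.mono (c' := -(Q * g m)) (by nlinarith)).sub h2).sub (PG.sum _ _ h3)
    have e1 : algebraMap k Ω e * D (Q * m) θ + ((∑ i ∈ range s, if p ^ (i + 1) ∣ Q * m then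
        A i * (D (Q * m / p ^ (i + 1)) θ) ^ p ^ (i + 1) else 0) + A s * w ^ Q) -
        algebraMap k Ω e * D (Q * m) θ - (∑ i ∈ range s, if p ^ (i + 1) ∣ Q * m then
        A i * (D (Q * m / p ^ (i + 1)) θ) ^ p ^ (i + 1) else 0) = A s * w ^ Q := by ring
    rwa [e1] at h5
  -- divide by `w ^ Q`
  have h5 : PG p v F 0 (A s) := by
    have e1 : A s = A s * w ^ Q * ((w ^ p ^ s)⁻¹) ^ p := by
      rw [inv_pow, ← pow_mul, ← pow_succ, ← hQ, mul_assoc, mul_inv_cancel₀ (pow_ne_zero _ hw0),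
        mul_one]
    have h6 : v.Ge (Q * g m) (((w ^ p ^ s)⁻¹) ^ p) := by
      intro h0
      rw [inv_pow, ← pow_mul, ← pow_succ, ← hQ, v.map_inv (pow_ne_zero _ hw0), v.map_pow hw0, hwv]
      linarith
    rw [e1]
    refine (h4.mul_pow (F.inv_mem (pow_mem hwF _)) h6).mono ?_
    linarith
  obtain ⟨h, hh, h6⟩ := h5
  exact hs h hh h6

end Pool.Agent.TWII
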