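import Pool.Agent.Lib.TWII.PropH
import Pool.Agent.Lib.TWLM.Arc

/-!
# TANK W, line (II): Proposition H, vector form, any arc

`Φ` a Hasse-Schmidt derivation of `F` of norm `≤ l σ`, overconvergent (not necessarily strict);
`u i` limits of `F` up to `ρ i`; `B = a₀ + ∑ i, ∑ j ≤ S i, X i j * u i ^ p ^ j` a limit of `F ^ p`
up to `ν`; the coefficients `X i j` below the top are limits of `F ^ p`, their derivatives are in
`F ^ p + O(>)`; the tops are independent. Only finitely many jets of the `u i` are visible.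
-/

set_option autoImplicit false

open Finset

namespace Pool.Agent.TWII

open Pool.Agent.H15JM (RVal)
open Pool.Agent.TWM
open Pool.Agent.TWLM (HSd Oi Arc)

universe u

variable {k Ω : Type u} [Field k] [Field Ω] [Algebra k Ω] {v : RVal Ω}
  {F : IntermediateField k Ω} {σ : ℝ} {Φ : ℕ → Ω → Ω}

/-- The norm of `Φ l` on `F` is at most `l σ`. -/
def Wn (v : RVal Ω) (F : IntermediateField k Ω) (σ : ℝ) (Φ : ℕ → Ω → Ω) : Prop :=
  ∀ l : ℕ, ∀ f ∈ F, ∀ b : ℝ, v.Ge b f → v.Ge (b - l * σ) (Φ l f)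

theorem Wn.of_arc (h : Arc v F σ Φ) : Wn v F σ Φ := by
  intro l f hf b hb
  rcases eq_or_ne l 0 with rfl | hl
  · rw [h.c0 f hf]
    exact hb.mono (by simp)
  · obtain ⟨n, hn, h1⟩ := h.str l hl
    exact (h1 f hf b hb).mono (by linarith)

/-- `P θ` for the points `θ` of `F` near `u`. -/
def Nr (v : RVal Ω) (F : IntermediateField k Ω) (ρ : ℝ) (u : Ω) (P : Ω → Prop) : Prop :=
  ∃ δ : ℝ, 0 < δ ∧ ∀ θ ∈ F, v.Ge (ρ - δ) (u - θ) → P θ

section Nr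

variable {ρ : ℝ} {u : Ω} {P Q : Ω → Prop}

theorem Nr.mono (h : Nr v F ρ u P) (hPQ : ∀ θ ∈ F, P θ → Q θ) : Nr v F ρ u Q := by
  obtain ⟨δ, hδ, h1⟩ := h
  exact ⟨δ, hδ, fun θ hθ h2 => hPQ θ hθ (h1 θ hθ h2)⟩

theorem Nr.and (h : Nr v F ρ u P) (h' : Nr v F ρ u Q) : Nr v F ρ u fun θ => P θ ∧ Q θ := by
  obtain ⟨δ, hδ, h1⟩ := h
  obtain ⟨δ', hδ', h2⟩ := h'
  refine ⟨min δ δ', lt_min hδ hδ', fun θ hθ h3 => ⟨h1 θ hθ (h3.mono ?_), h2 θ hθ (h3.mono ?_)⟩⟩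
  · linarith [min_le_left δ δ']
  · linarith [min_le_right δ δ']

theorem Nr.of_forall (h : ∀ θ ∈ F, P θ) : Nr v F ρ u P := ⟨1, one_pos, fun θ hθ _ => h θ hθ⟩

theorem Nr.all {ι : Type*} (S : Finset ι) {P : ι → Ω → Prop} (h : ∀ i ∈ S, Nr v F ρ u (P i)) :
    Nr v F ρ u fun θ => ∀ i ∈ S, P i θ := by
  classical
  induction S using Finset.induction_on with
  | empty => exact Nr.of_forall fun θ _ i hi => absurd hi (Finset.notMem_empty i)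
  | insert a S ha ih =>
    refine ((h a (mem_insert_self a S)).and (ih fun i hi => h i (mem_insert_of_mem hi))).mono
      fun θ _ h1 i hi => ?_
    rcases mem_insert.1 hi with rfl | hi
    · exact h1.1
    · exact h1.2 i hi

theorem Nr.exists (h : Nr v F ρ u P) (hu : Lim v F ρ u) : ∃ θ ∈ F, P θ := by
  obtain ⟨δ, hδ, h1⟩ := h
  obtain ⟨θ, hθ, h2⟩ := hu δ hδ
  exact ⟨θ, hθ, h1 θ hθ h2⟩

theorem Nr.near {ε : ℝ} (hε : 0 < ε) : Nr v F ρ u fun θ => v.Ge (ρ - ε) (u - θ) :=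
  ⟨ε, hε, fun _ _ h => h⟩

end Nr

/-- The gaps of the jets of `u`. -/
theorem exists_gap (hΦ : HSd F Φ) (hn : Wn v F σ Φ) (ho : Oi v F σ Φ) {ρ : ℝ} {u : Ω}
    (hu : Lim v F ρ u) : ∃ g : ℕ → ℝ, (∀ l, 0 ≤ g l) ∧
      (∀ l : ℕ, ∀ ε : ℝ, 0 < ε → Nr v F ρ u fun θ => v.Ge (ρ - l * σ - g l - ε) (Φ l θ)) ∧
      (∀ l : ℕ, 0 < g l → Nr v F ρ u fun θ => Φ l θ ≠ 0 ∧ v (Φ l θ) = ρ - l * σ - g l) ∧
      ∀ ε : ℝ, 0 < ε → ∃ L : ℕ, ∀ l, L ≤ l → g l ≤ ε := by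
  classical
  have key : ∀ l : ℕ, ∃ g : ℝ, 0 ≤ g ∧
      (∀ ε : ℝ, 0 < ε → Nr v F ρ u fun θ => v.Ge (ρ - l * σ - g - ε) (Φ l θ)) ∧
      (0 < g → Nr v F ρ u fun θ => Φ l θ ≠ 0 ∧ v (Φ l θ) = ρ - l * σ - g) := by
    intro l
    by_cases h : ∃ δ : ℝ, 0 < δ ∧ ∃ θ ∈ F, v.Ge (ρ - δ) (u - θ) ∧ Φ l θ ≠ 0 ∧
        v (Φ l θ) < ρ - l * σ - δ
    · obtain ⟨δ, hδ, θ₀, hθ₀, h1, h2, h3⟩ := h
      have h4 : Nr v F ρ u fun θ => Φ l θ ≠ 0 ∧ v (Φ l θ) = v (Φ l θ₀) := by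
        refine ⟨δ, hδ, fun θ hθ h4 => ?_⟩
        refine Gt.val_eq h2 (Gt.of_ge (r' := ρ - δ - l * σ) ?_ (by linarith))
        rw [← hΦ.sub l hθ₀ hθ]
        refine hn l _ (sub_mem hθ₀ hθ) _ ?_
        have e1 : θ₀ - θ = (u - θ) - (u - θ₀) := by ring
        rw [e1]
        exact h4.sub h1
      refine ⟨ρ - l * σ - v (Φ l θ₀), by linarith, fun ε hε => h4.mono fun θ _ h5 => ?_,
        fun _ => h4.mono fun θ _ h5 => ⟨h5.1, by rw [h5.2]; ring⟩⟩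
      intro _
      rw [h5.2]
      linarith
    · refine ⟨0, le_rfl, fun ε hε => ⟨ε, hε, fun θ hθ h1 h0 => ?_⟩, fun h0 => absurd h0
        (lt_irrefl _)⟩
      by_contra h2
      exact h ⟨ε, hε, θ, hθ, h1, h0, by linarith [not_le.1 h2]⟩
  choose g hg0 hgb hgc using key
  refine ⟨g, hg0, hgb, hgc, fun ε hε => ?_⟩
  obtain ⟨θ₀, hθ₀, h1⟩ := hu ε hε
  obtain ⟨L, hL⟩ := ho θ₀ hθ₀ ρ
  refine ⟨L, fun l hl => ?_⟩
  by_contra h2
  have h2 := not_le.1 h2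
  obtain ⟨θ, hθ, ⟨h3, h4⟩, h5⟩ := ((hgc l (by linarith)).and (Nr.near hε)).exists hu
  have h6 : v.Ge (ρ - ε - l * σ) (Φ l θ) := by
    have e1 : Φ l θ = Φ l (θ - θ₀) + Φ l θ₀ := by
      rw [hΦ.sub l hθ hθ₀]
      ring
    rw [e1]
    refine (hn l _ (sub_mem hθ hθ₀) (ρ - ε) ?_).add ((hL l hl).mono (by linarith))
    have e2 : θ - θ₀ = (u - θ₀) - (u - θ) := by ring
    rw [e2]
    exact h1.sub h5
  have h7 := h6 h3
  linarith

section Term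

variable (p : ℕ) [hp : Fact p.Prime] [CharP Ω p]

/-- The terms with a derivative of the coefficient are in `F ^ p + O(>)`. -/
theorem term_err (hΦ : HSd F Φ) (hn : Wn v F σ Φ) (ho : Oi v F σ Φ) {ρ : ℝ} {u : Ω}
    (hu : Lim v F ρ u) {X : Ω} (hX : X ∈ F) (j : ℕ) {τ : ℝ}
    (hd : ∀ n : ℕ, n ≠ 0 → ∃ w ∈ F, (j = 0 → w = 0) ∧ Gt v (τ - n * σ) (Φ n X - w ^ p)) :
    ∃ L : ℕ, ∀ l : ℕ, L ≤ l → Nr v F ρ u fun θ =>
      PG p v F (τ + (p : ℝ) ^ j * ρ - l * σ) (Φ l (X * θ ^ p ^ j) -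
        if p ^ j ∣ l then X * (Φ (l / p ^ j) θ) ^ p ^ j else 0) := by
  classical
  have hp0 : 0 < p := hp.out.pos
  have hq0 : 0 < p ^ j := Nat.pow_pos hp0
  have hqr : (0 : ℝ) < (p : ℝ) ^ j := by positivity
  obtain ⟨g, hg0, hgb, -, hglim⟩ := exists_gap hΦ hn ho hu
  -- a bound for the values
  obtain ⟨M, hM0, hM⟩ : ∃ M : ℝ, 0 ≤ M ∧ Nr v F ρ u fun θ => v.Ge (-M) θ := by
    refine ⟨max (max (1 - ρ) (-v u)) 0, le_max_right _ _, 1, one_pos, fun θ _ h1 => ?_⟩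
    have h2 := le_max_left (max (1 - ρ) (-v u)) 0
    have e1 : θ = u - (u - θ) := by ring
    rw [e1]
    refine RVal.Ge.sub (fun _ => ?_) (h1.mono ?_)
    · linarith [le_max_right (1 - ρ) (-v u)]
    · linarith [le_max_left (1 - ρ) (-v u)]
  obtain ⟨J, hJ⟩ := ho X hX (τ + (p : ℝ) ^ j * ρ + (p : ℝ) ^ j * M + 1)
  choose! w hwF hw0 hw using hd
  -- the margin
  obtain ⟨μ, hμ, hμw⟩ : ∃ μ : ℝ, 0 < μ ∧ ∀ n : ℕ, n ≠ 0 → n < J →
      v.Ge (τ - n * σ + μ) (Φ n X - w n ^ p) := by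
    clear hJ
    induction J with
    | zero => exact ⟨1, one_pos, fun n _ h1 => absurd h1 (Nat.not_lt_zero n)⟩
    | succ J ih =>
      obtain ⟨μ, hμ, h1⟩ := ih
      rcases eq_or_ne J 0 with rfl | hJ0
      · exact ⟨1, one_pos, fun n hn0 h2 => absurd (Nat.lt_one_iff.1 h2) hn0⟩
      obtain ⟨μ', hμ', h2⟩ := TWLM.exists_ge_of_gt (hw J hJ0)
      refine ⟨min μ μ', lt_min hμ hμ', fun n hn0 h3 => ?_⟩
      rcases Nat.lt_succ_iff_lt_or_eq.1 h3 with h4 | rfl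
      · exact (h1 n hn0 h4).mono (by linarith [min_le_left μ μ'])
      · exact h2.mono (by linarith [min_le_right μ μ'])
  obtain ⟨L₁, hL₁⟩ := hglim (μ / (4 * (p : ℝ) ^ j)) (by positivity)
  refine ⟨J + p ^ j * (L₁ + 1), fun l hl => ?_⟩
  have hN := (Nr.all (range (l + 1)) fun m _ => hgb m (μ / (4 * (p : ℝ) ^ j))
    (by positivity)).and hM
  refine hN.mono fun θ hθ h1 => ?_
  obtain ⟨h1, h2⟩ := h1
  have h2' : ∀ m : ℕ, v.Ge (-M - m * σ) (Φ m θ) := fun m => hn m θ hθ _ h2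
  rw [hΦ.mul l X hX _ (pow_mem hθ _)]
  have h0l : ((0, l) : ℕ × ℕ) ∈ antidiagonal l := HasAntidiagonal.mem_antidiagonal.2 (zero_add l)
  rw [← Finset.add_sum_erase _ _ h0l]
  have e2 : Φ 0 X * Φ l (θ ^ p ^ j) = if p ^ j ∣ l then X * (Φ (l / p ^ j) θ) ^ p ^ j else 0 := by
    rw [hΦ.c0 X hX]
    split_ifs with h3
    · obtain ⟨m, rfl⟩ := h3
      rw [hΦ.pow_mul p hθ, Nat.mul_div_cancel_left _ hq0]
    · rw [hΦ.pow_zero p hθ j l h3, mul_zero]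
  rw [e2, add_sub_cancel_left]
  refine .sum _ _ fun ij hij => ?_
  obtain ⟨hne, hij'⟩ := Finset.mem_erase.1 hij
  rw [HasAntidiagonal.mem_antidiagonal] at hij'
  obtain ⟨n, n'⟩ := ij
  simp only at hij' hne ⊢
  have hn0 : n ≠ 0 := by
    rintro rfl
    apply hne
    rw [zero_add] at hij'
    rw [hij']
  by_cases h5 : p ^ j ∣ n'
  swap
  · rw [hΦ.pow_zero p hθ j n' h5, mul_zero]
    exact .of_gt Gt.zero
  obtain ⟨m, rfl⟩ := h5
  rw [hΦ.pow_mul p hθ]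
  have hlr : (l : ℝ) = n + (p : ℝ) ^ j * m := by
    rw [← hij']
    push_cast
    ring
  by_cases hnJ : n < J
  · have hm : L₁ ≤ m := by
      by_contra h5
      have h6 : p ^ j * m ≤ p ^ j * L₁ := Nat.mul_le_mul_left _ (not_le.1 h5).le
      have h7 : p ^ j * (L₁ + 1) = p ^ j * L₁ + p ^ j := by ring
      omega
    have hml : m ∈ range (l + 1) := by
      rw [mem_range]
      have : m ≤ p ^ j * m := Nat.le_mul_of_pos_left m hq0
      omega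
    have h6 : v.Ge (ρ - m * σ - μ / (2 * (p : ℝ) ^ j)) (Φ m θ) := by
      refine (h1 m hml).mono ?_
      have h7 := hL₁ m hm
      have e3 : μ / (2 * (p : ℝ) ^ j) = μ / (4 * (p : ℝ) ^ j) + μ / (4 * (p : ℝ) ^ j) := by
        field_simp
        ring
      rw [e3]
      linarith
    have h7 : v.Ge ((p : ℝ) ^ j * (ρ - m * σ) - μ / 2) ((Φ m θ) ^ p ^ j) := by
      refine (ge_pow' h6 (p ^ j)).mono (le_of_eq ?_)
      push_cast
      field_simp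
    have e4 : Φ n X * (Φ m θ) ^ p ^ j =
        (Φ n X - w n ^ p) * (Φ m θ) ^ p ^ j + w n ^ p * (Φ m θ) ^ p ^ j := by ring
    rw [e4]
    refine PG.add (.of_gt ?_) ?_
    · refine Gt.of_ge ((hμw n hn0 hnJ).mul h7) ?_
      rw [hlr]
      linarith
    · rcases Nat.eq_zero_or_pos j with hj0 | hj0
      · rw [hw0 n hn0 hj0, zero_pow hp.out.ne_zero, zero_mul]
        exact .of_gt Gt.zero
      · have e5 : w n ^ p * (Φ m θ) ^ p ^ j = (w n * (Φ m θ) ^ p ^ (j - 1)) ^ p := by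
          rw [_root_.mul_pow, ← pow_mul, ← pow_succ, Nat.sub_add_cancel hj0]
        rw [e5]
        exact .of_pow (mul_mem (hwF n hn0) (pow_mem (hΦ.mem _ _ hθ) _))
  · refine .of_gt (Gt.of_ge ((hJ n (not_lt.1 hnJ)).mul (ge_pow' (h2' m) (p ^ j))) ?_)
    push_cast
    rw [hlr]
    linarith

end Term

/-- `P θ` for the points `θ` of `F ^ ι` near `u`. -/
def NrV {ι : Type*} (v : RVal Ω) (F : IntermediateField k Ω) (ρ : ι → ℝ) (u : ι → Ω)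
    (P : (ι → Ω) → Prop) : Prop :=
  ∃ δ : ℝ, 0 < δ ∧ ∀ θ : ι → Ω, (∀ i, θ i ∈ F) → (∀ i, v.Ge (ρ i - δ) (u i - θ i)) → P θ

section NrV

variable {ι : Type*} {ρ : ι → ℝ} {u : ι → Ω} {P Q : (ι → Ω) → Prop}

theorem NrV.mono (h : NrV v F ρ u P) (hPQ : ∀ θ, (∀ i, θ i ∈ F) → P θ → Q θ) :
    NrV v F ρ u Q := by
  obtain ⟨δ, hδ, h1⟩ := h
  exact ⟨δ, hδ, fun θ hθ h2 => hPQ θ hθ (h1 θ hθ h2)⟩

theorem NrV.and (h : NrV v F ρ u P) (h' : NrV v F ρ u Q) : NrV v F ρ u fun θ => P θ ∧ Q θ := by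
  obtain ⟨δ, hδ, h1⟩ := h
  obtain ⟨δ', hδ', h2⟩ := h'
  refine ⟨min δ δ', lt_min hδ hδ', fun θ hθ h3 => ⟨h1 θ hθ fun i => (h3 i).mono ?_,
    h2 θ hθ fun i => (h3 i).mono ?_⟩⟩
  · linarith [min_le_left δ δ']
  · linarith [min_le_right δ δ']

theorem NrV.of_forall (h : ∀ θ, (∀ i, θ i ∈ F) → P θ) : NrV v F ρ u P :=
  ⟨1, one_pos, fun θ hθ _ => h θ hθ⟩

theorem NrV.all {κ : Type*} (S : Finset κ) {P : κ → (ι → Ω) → Prop}
    (h : ∀ i ∈ S, NrV v F ρ u (P i)) : NrV v F ρ u fun θ => ∀ i ∈ S, P i θ := by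
  classical
  induction S using Finset.induction_on with
  | empty => exact NrV.of_forall fun θ _ i hi => absurd hi (Finset.notMem_empty i)
  | insert a S ha ih =>
    refine ((h a (mem_insert_self a S)).and (ih fun i hi => h i (mem_insert_of_mem hi))).mono
      fun θ _ h1 i hi => ?_
    rcases mem_insert.1 hi with rfl | hi
    · exact h1.1
    · exact h1.2 i hi

theorem NrV.exists (h : NrV v F ρ u P) (hu : ∀ i, Lim v F (ρ i) (u i)) :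
    ∃ θ : ι → Ω, (∀ i, θ i ∈ F) ∧ P θ := by
  obtain ⟨δ, hδ, h1⟩ := h
  choose θ hθ h2 using fun i => hu i δ hδ
  exact ⟨θ, hθ, h1 θ hθ h2⟩

theorem NrV.of_nr {i : ι} {P : Ω → Prop} (h : Nr v F (ρ i) (u i) P) :
    NrV v F ρ u fun θ => P (θ i) := by
  obtain ⟨δ, hδ, h1⟩ := h
  exact ⟨δ, hδ, fun θ hθ h2 => h1 (θ i) (hθ i) (h2 i)⟩

end NrV

section Main

variable (p : ℕ) [hp : Fact p.Prime] [CharP Ω p] {ι : Type*} [Fintype ι]

/-- **Proposition H, vector form.** -/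
theorem propHV (hΦ : HSd F Φ) (hn : Wn v F σ Φ) (ho : Oi v F σ Φ) {ρ : ι → ℝ} {u : ι → Ω}
    (hu : ∀ i, Lim v F (ρ i) (u i)) {ν : ℝ} {a₀ : Ω} (ha₀ : a₀ ∈ F) (S : ι → ℕ)
    (X : ι → ℕ → Ω) (hX : ∀ i, ∀ j ≤ S i, X i j ∈ F)
    (hd : ∀ i, ∀ j ≤ S i, ∀ n : ℕ, n ≠ 0 → ∃ w ∈ F, (j = 0 → w = 0) ∧
      Gt v (ν - (p : ℝ) ^ j * ρ i - n * σ) (Φ n (X i j) - w ^ p))
    (hlow : ∀ i, ∀ j < S i, ∀ ε : ℝ, 0 < ε → ∃ w ∈ F, (j = 0 → w = 0) ∧
      v.Ge (ν - (p : ℝ) ^ j * ρ i - ε) (X i j - w ^ p))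
    (hind : ∀ c : ι → Ω, (∀ i, c i ∈ F) → ∀ t : ℝ,
      PG p v F t (∑ i, X i (S i) * c i ^ p ^ S i) →
      ∀ i, Gt v (t - ν + (p : ℝ) ^ S i * ρ i) (c i ^ p ^ S i))
    (hB : ∀ ε : ℝ, 0 < ε → NrV v F ρ u fun θ => ∃ g ∈ F, v.Ge (ν - ε)
      (a₀ + ∑ i, ∑ j ∈ range (S i + 1), X i j * θ i ^ p ^ j - g ^ p)) :
    ∃ L : ℕ, ∀ i, ∀ l : ℕ, L < l → ∀ ε : ℝ, 0 < ε →
      Nr v F (ρ i) (u i) fun θ => v.Ge (ρ i - l * σ - ε) (Φ l θ) := by
  classical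
  have hp0 : 0 < p := hp.out.pos
  have hp1 : 1 < p := hp.out.one_lt
  choose g hg0 hgb hgc hglim using fun i => exists_gap hΦ hn ho (hu i)
  -- the relation in large degree
  have hT := fun i (j : ℕ) (hj : j ≤ S i) => term_err p hΦ hn ho (hu i) (hX i j hj) j (hd i j hj)
  choose! Lt hLt using hT
  obtain ⟨L₀, hL₀⟩ := ho a₀ ha₀ (ν + 1)
  set T : ι → ℕ → ℕ → (ι → Ω) → Ω := fun i j l θ =>
    if p ^ j ∣ l then X i j * (Φ (l / p ^ j) (θ i)) ^ p ^ j else 0 with hTd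
  obtain ⟨LR, hLR0, hLR⟩ : ∃ LR : ℕ, L₀ ≤ LR ∧ ∀ i, ∀ j ≤ S i, Lt i j ≤ LR := by
    refine ⟨max L₀ (univ.sup fun i => (range (S i + 1)).sup (Lt i)), le_max_left _ _,
      fun i j hj => le_trans ?_ (le_max_right _ _)⟩
    exact (Finset.le_sup (f := Lt i) (mem_range.2 (Nat.lt_succ_of_le hj))).trans
      (Finset.le_sup (f := fun i => (range (S i + 1)).sup (Lt i)) (mem_univ i))
  have hR : ∀ l : ℕ, LR ≤ l → ∀ ε : ℝ, 0 < ε → NrV v F ρ u fun θ =>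
      PG p v F (ν - l * σ - ε) (∑ i, ∑ j ∈ range (S i + 1), T i j l θ) := by
    intro l hl ε hε
    have h1 : NrV v F ρ u fun θ => ∀ i ∈ (univ : Finset ι), ∀ j ∈ range (S i + 1),
        PG p v F (ν - l * σ) (Φ l (X i j * θ i ^ p ^ j) - T i j l θ) := by
      refine NrV.all _ fun i _ => NrV.all _ fun j hj => ?_
      have hj' : j ≤ S i := Nat.lt_succ_iff.1 (mem_range.1 hj)
      refine (NrV.of_nr (hLt i j hj' l ((hLR i j hj').trans hl))).mono fun θ _ h2 => ?_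
      exact h2.mono (by linarith)
    refine ((hB (ε / 2) (half_pos hε)).and h1).mono fun θ hθ h2 => ?_
    obtain ⟨⟨w, hw, h2⟩, h3⟩ := h2
    set B := a₀ + ∑ i, ∑ j ∈ range (S i + 1), X i j * θ i ^ p ^ j with hBd
    have hm : ∀ i, ∀ j ∈ range (S i + 1), X i j * θ i ^ p ^ j ∈ F := fun i j hj =>
      F.mul_mem (hX i j (Nat.lt_succ_iff.1 (mem_range.1 hj))) (pow_mem (hθ i) _)
    have hm' : ∀ i ∈ (univ : Finset ι), ∑ j ∈ range (S i + 1), X i j * θ i ^ p ^ j ∈ F :=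
      fun i _ => sum_mem (hm i)
    have hBF : B ∈ F := F.add_mem ha₀ (sum_mem hm')
    have h4 : PG p v F (ν - l * σ - ε) (Φ l B) := by
      have e1 : Φ l B = Φ l (B - w ^ p) + Φ l (w ^ p) := by
        rw [hΦ.sub l hBF (pow_mem hw p)]
        ring
      rw [e1]
      refine PG.add (.of_gt ?_) ?_
      · exact Gt.of_ge (hn l _ (F.sub_mem hBF (pow_mem hw p)) _ h2) (by linarith)
      · by_cases h5 : p ^ 1 ∣ l
        · obtain ⟨m, rfl⟩ := h5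
          have := hΦ.pow_mul p hw 1 m
          rw [pow_one] at this ⊢
          rw [this]
          exact .of_pow (hΦ.mem _ _ hw)
        · have := hΦ.pow_zero p hw 1 l h5
          rw [pow_one] at this
          rw [this]
          exact .of_gt Gt.zero
    have h5 : Φ l B = Φ l a₀ + ∑ i, ∑ j ∈ range (S i + 1), Φ l (X i j * θ i ^ p ^ j) := by
      rw [hBd, hΦ.add l _ ha₀ _ (sum_mem hm'), hΦ.sum l _ _ hm']
      congr 1
      exact Finset.sum_congr rfl fun i _ => hΦ.sum l _ _ (hm i)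
    have h6 : PG p v F (ν - l * σ - ε) (Φ l a₀) :=
      .of_gt (Gt.of_ge (hL₀ l (hLR0.trans hl)) (by linarith))
    have h7 : PG p v F (ν - l * σ - ε) (∑ i, ∑ j ∈ range (S i + 1),
        (Φ l (X i j * θ i ^ p ^ j) - T i j l θ)) :=
      PG.sum _ _ fun i hi => PG.sum _ _ fun j hj => (h3 i hi j hj).mono (by linarith)
    have e2 : ∑ i, ∑ j ∈ range (S i + 1), T i j l θ = Φ l B - Φ l a₀ -
        ∑ i, ∑ j ∈ range (S i + 1), (Φ l (X i j * θ i ^ p ^ j) - T i j l θ) := by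
      rw [h5]
      simp only [Finset.sum_sub_distrib]
      ring
    rw [e2]
    exact (h4.sub h6).sub h7
  -- the extremal degree
  by_contra hcon
  push Not at hcon
  set φ : ι → ℕ → ℝ := fun i l => if p ^ S i ∣ l then (p : ℝ) ^ S i * g i (l / p ^ S i) else 0
    with hφ
  have hφm : ∀ i m, φ i (p ^ S i * m) = (p : ℝ) ^ S i * g i m := by
    intro i m
    rw [hφ]
    dsimp only
    rw [if_pos (dvd_mul_right _ _), Nat.mul_div_cancel_left _ (Nat.pow_pos hp0)]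
  have hφ0 : ∀ i l, ¬ p ^ S i ∣ l → φ i l = 0 := by
    intro i l h1
    rw [hφ]
    dsimp only
    rw [if_neg h1]
  obtain ⟨i₁, m₁, hm₁, hg₁⟩ : ∃ i m, LR < m ∧ 0 < g i m := by
    obtain ⟨i, l, hl, ε, hε, h1⟩ := hcon LR
    refine ⟨i, l, hl, ?_⟩
    by_contra h2
    have h3 : g i l = 0 := le_antisymm (not_lt.1 h2) (hg0 i l)
    apply h1
    have := hgb i l ε hε
    rwa [h3, sub_zero] at this
  set l₁ := p ^ S i₁ * m₁ with hl₁
  have hl₁R : LR ≤ l₁ := hm₁.le.trans (Nat.le_mul_of_pos_left _ (Nat.pow_pos hp0))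
  have hφ₁ : 0 < φ i₁ l₁ := by
    rw [hl₁, hφm]
    positivity
  obtain ⟨N, hN⟩ : ∃ N : ℕ, ∀ i, ∀ l, N ≤ l → φ i l ≤ φ i₁ l₁ := by
    choose L hL using fun i => hglim i (φ i₁ l₁ / (p : ℝ) ^ S i) (by positivity)
    refine ⟨univ.sup fun i => p ^ S i * L i, fun i l hl => ?_⟩
    by_cases h1 : p ^ S i ∣ l
    · obtain ⟨m, rfl⟩ := h1
      have h2 : p ^ S i * L i ≤ p ^ S i * m :=
        (Finset.le_sup (f := fun i => p ^ S i * L i) (mem_univ i)).trans hl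
      have h3 : L i ≤ m := Nat.le_of_mul_le_mul_left h2 (Nat.pow_pos hp0)
      have h4 := hL i m h3
      rw [hφm]
      have hq : (0 : ℝ) < (p : ℝ) ^ S i := by positivity
      rw [le_div_iff₀ hq] at h4
      linarith
    · rw [hφ0 i l h1]
      exact hφ₁.le
  obtain ⟨i₀, l, hlR, hG, hmax⟩ : ∃ i₀ l, LR ≤ l ∧ 0 < φ i₀ l ∧
      ∀ i, ∀ l', LR ≤ l' → φ i l' ≤ φ i₀ l := by
    have hne : (i₁, l₁) ∈ (univ : Finset ι) ×ˢ Finset.Icc LR (max l₁ N) :=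
      Finset.mk_mem_product (mem_univ _) (Finset.mem_Icc.2 ⟨hl₁R, le_max_left _ _⟩)
    obtain ⟨⟨i₀, l⟩, hm, h1⟩ := Finset.exists_max_image _ (fun x : ι × ℕ => φ x.1 x.2) ⟨_, hne⟩
    have h2 := h1 _ hne
    obtain ⟨-, hm⟩ := Finset.mem_product.1 hm
    refine ⟨i₀, l, (Finset.mem_Icc.1 hm).1, hφ₁.trans_le h2, fun i l' hl' => ?_⟩
    rcases le_or_gt l' (max l₁ N) with h3 | h3
    · exact h1 (i, l') (Finset.mk_mem_product (mem_univ _) (Finset.mem_Icc.2 ⟨hl', h3⟩))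
    · exact (hN i l' ((le_max_right _ _).trans h3.le)).trans h2
  set G := φ i₀ l with hGd
  obtain ⟨m₀, rfl⟩ : p ^ S i₀ ∣ l := by
    by_contra h1
    rw [hGd, hφ0 i₀ l h1] at hG
    exact lt_irrefl _ hG
  have hGm : G = (p : ℝ) ^ S i₀ * g i₀ m₀ := hφm i₀ m₀
  have hgm₀ : 0 < g i₀ m₀ := by
    by_contra h1
    have h2 : g i₀ m₀ = 0 := le_antisymm (not_lt.1 h1) (hg0 i₀ m₀)
    rw [hGm, h2, mul_zero] at hG
    exact lt_irrefl _ hG
  set l := p ^ S i₀ * m₀ with hl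
  -- the point
  have h1 : NrV v F ρ u fun θ => ∀ i ∈ (univ : Finset ι), ∀ j ∈ range (S i), ∀ m ∈ range (l + 1),
      v.Ge (ρ i - m * σ - g i m - G / (8 * (p : ℝ) ^ j)) (Φ m (θ i)) :=
    NrV.all _ fun i _ => NrV.all _ fun j _ => NrV.all _ fun m _ =>
      NrV.of_nr (hgb i m (G / (8 * (p : ℝ) ^ j)) (by positivity))
  obtain ⟨θ, hθ, ⟨h1, h2⟩, h3, h4⟩ := ((h1.and (hR l hlR G hG)).and
    (NrV.of_nr (hgc i₀ m₀ hgm₀))).exists hu
  -- the low terms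
  have h5 : ∀ i, ∀ j ∈ range (S i), PG p v F (ν - l * σ - G) (T i j l θ) := by
    intro i j hj
    have hjS : j < S i := mem_range.1 hj
    rw [hTd]
    dsimp only
    split_ifs with h6
    swap
    · exact .of_gt Gt.zero
    obtain ⟨m, hm⟩ := h6
    have hq0 : 0 < p ^ j := Nat.pow_pos hp0
    have hqr : (0 : ℝ) < (p : ℝ) ^ j := by positivity
    have hlm : (l : ℝ) = (p : ℝ) ^ j * m := by exact_mod_cast hm
    rw [hm, Nat.mul_div_cancel_left _ hq0]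
    have hml : m ∈ range (l + 1) := by
      rw [mem_range]
      have : m ≤ p ^ j * m := Nat.le_mul_of_pos_left m hq0
      omega
    have h7 : (p : ℝ) ^ j * g i m ≤ G / 2 := by
      have h8 : φ i (p ^ S i * m) ≤ G := by
        refine hmax i _ (hlR.trans ?_)
        rw [hm]
        exact Nat.mul_le_mul_right _ (Nat.pow_le_pow_right hp0 hjS.le)
      rw [hφm] at h8
      have h9 : (p : ℝ) ^ j * 2 ≤ (p : ℝ) ^ S i := by
        have h10 : p ^ j * 2 ≤ p ^ S i := by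
          calc p ^ j * 2 ≤ p ^ j * p := Nat.mul_le_mul_left _ hp1
            _ = p ^ (j + 1) := (pow_succ p j).symm
            _ ≤ p ^ S i := Nat.pow_le_pow_right hp0 hjS
        exact_mod_cast h10
      nlinarith [hg0 i m]
    have h8 : v.Ge ((p : ℝ) ^ j * (ρ i - m * σ) - G / 2 - G / 8) ((Φ m (θ i)) ^ p ^ j) := by
      refine (ge_pow' (h1 i (mem_univ i) j hj m hml) (p ^ j)).mono ?_
      push_cast
      have e1 : (p : ℝ) ^ j * (ρ i - m * σ - g i m - G / (8 * (p : ℝ) ^ j)) =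
          (p : ℝ) ^ j * (ρ i - m * σ) - (p : ℝ) ^ j * g i m - G / 8 := by
        field_simp
      rw [e1]
      linarith
    obtain ⟨w, hw, hw0, h9⟩ := hlow i j hjS (G / 8) (by positivity)
    have e2 : X i j * (Φ m (θ i)) ^ p ^ j =
        (X i j - w ^ p) * (Φ m (θ i)) ^ p ^ j + w ^ p * (Φ m (θ i)) ^ p ^ j := by ring
    rw [e2]
    refine PG.add (.of_gt ?_) ?_
    · refine Gt.of_ge (h9.mul h8) ?_
      push_cast
      linarith
    · rcases Nat.eq_zero_or_pos j with hj0 | hj0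
      · rw [hw0 hj0, zero_pow hp.out.ne_zero, zero_mul]
        exact .of_gt Gt.zero
      · have e5 : w ^ p * (Φ m (θ i)) ^ p ^ j = (w * (Φ m (θ i)) ^ p ^ (j - 1)) ^ p := by
          rw [_root_.mul_pow, ← pow_mul, ← pow_succ, Nat.sub_add_cancel hj0]
        rw [e5]
        exact .of_pow (F.mul_mem hw (pow_mem (hΦ.mem _ _ (hθ i)) _))
  -- the tops
  have h6 : PG p v F (ν - l * σ - G) (∑ i, T i (S i) l θ) := by
    have e1 : ∑ i, T i (S i) l θ = ∑ i, ∑ j ∈ range (S i + 1), T i j l θ -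
        ∑ i, ∑ j ∈ range (S i), T i j l θ := by
      rw [← Finset.sum_sub_distrib]
      refine Finset.sum_congr rfl fun i _ => ?_
      rw [Finset.sum_range_succ, add_sub_cancel_left]
    rw [e1]
    exact h2.sub (PG.sum _ _ fun i _ => PG.sum _ _ (h5 i))
  set c : ι → Ω := fun i => if p ^ S i ∣ l then Φ (l / p ^ S i) (θ i) else 0 with hc
  have h7 : ∑ i, T i (S i) l θ = ∑ i, X i (S i) * c i ^ p ^ S i := by
    refine Finset.sum_congr rfl fun i _ => ?_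
    rw [hTd, hc]
    dsimp only
    split_ifs
    · rfl
    · rw [zero_pow (Nat.pow_pos hp0).ne', mul_zero]
  rw [h7] at h6
  have h8 := hind c (fun i => by
    rw [hc]
    dsimp only
    split_ifs
    · exact hΦ.mem _ _ (hθ i)
    · exact F.zero_mem) _ h6 i₀
  have h9 : c i₀ = Φ m₀ (θ i₀) := by
    rw [hc]
    dsimp only
    rw [hl, if_pos (dvd_mul_right _ _), Nat.mul_div_cancel_left _ (Nat.pow_pos hp0)]
  rw [h9] at h8
  have h10 := h8 (pow_ne_zero _ h3)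
  rw [v.map_pow h3, h4] at h10
  have h11 : (l : ℝ) = (p : ℝ) ^ S i₀ * m₀ := by
    rw [hl]
    push_cast
    ring
  rw [hGm, h11] at h10
  push_cast at h10
  linarith

omit [Fintype ι] in
/-- The derivatives of a limit of `F ^ p` along a strict arc. -/
theorem null_of_arc (hΦ : Arc v F σ Φ) {x : Ω} (hx : x ∈ F) {j : ℕ} {τ : ℝ}
    (h : ∀ ε : ℝ, 0 < ε → ∃ w ∈ F, (j = 0 → w = 0) ∧ v.Ge (τ - ε) (x - w ^ p)) (n : ℕ)
    (hn : n ≠ 0) : ∃ w ∈ F, (j = 0 → w = 0) ∧ Gt v (τ - n * σ) (Φ n x - w ^ p) := by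
  obtain ⟨m, hm, h1⟩ := hΦ.str n hn
  obtain ⟨w, hw, hw0, h2⟩ := h ((n * σ - m) / 2) (by linarith)
  have h3 : Gt v (τ - n * σ) (Φ n x - Φ n (w ^ p)) := by
    rw [← hΦ.sub n hx (pow_mem hw p)]
    exact Gt.of_ge (h1 _ (sub_mem hx (pow_mem hw p)) _ h2) (by linarith)
  by_cases h4 : p ^ 1 ∣ n
  · obtain ⟨m, rfl⟩ := h4
    have h5 := hΦ.pow_mul p hw 1 m
    rw [pow_one] at h5 h3 ⊢
    rw [h5] at h3
    refine ⟨Φ m w, hΦ.mem _ _ hw, fun h0 => ?_, h3⟩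
    rw [hw0 h0, hΦ.zero]
  · have h5 := hΦ.pow_zero p hw 1 n h4
    rw [pow_one] at h5
    rw [h5] at h3
    exact ⟨0, F.zero_mem, fun _ => rfl, by rwa [zero_pow hp.out.ne_zero]⟩

omit [CharP Ω p] in
/-- The independence of one critical top. -/
theorem ind_of_not_pg {A c : Ω} {S : ℕ} (hS : S ≠ 0) {τ t : ℝ} (hA : ¬ PG p v F τ A) (hc : c ∈ F)
    (h : PG p v F t (A * c ^ p ^ S)) : Gt v (t - τ) (c ^ p ^ S) := by
  intro h0
  by_contra h1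
  apply hA
  have hc0 : c ≠ 0 := by
    rintro rfl
    exact h0 (zero_pow (Nat.pow_pos hp.out.pos).ne')
  obtain ⟨S, rfl⟩ := Nat.exists_eq_succ_of_ne_zero hS
  have h2 : v.Ge (-v (c ^ p ^ (S + 1))) (((c ^ p ^ S)⁻¹) ^ p) := by
    intro _
    rw [inv_pow, ← pow_mul, ← pow_succ, v.map_inv h0]
  have e1 : A = A * c ^ p ^ (S + 1) * ((c ^ p ^ S)⁻¹) ^ p := by
    rw [inv_pow, ← pow_mul, ← pow_succ, mul_assoc, mul_inv_cancel₀ h0, mul_one]
  rw [e1]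
  exact (h.mul_pow (F.inv_mem (pow_mem hc _)) h2).mono (by linarith [not_lt.1 h1])

/-- **Proposition H, vector form, strict arc.** -/
theorem propHV_arc (hΦ : Arc v F σ Φ) (ho : Oi v F σ Φ) {ρ : ι → ℝ} {u : ι → Ω}
    (hu : ∀ i, Lim v F (ρ i) (u i)) {ν : ℝ} {a₀ : Ω} (ha₀ : a₀ ∈ F) (S : ι → ℕ)
    (X : ι → ℕ → Ω) (hX : ∀ i, ∀ j ≤ S i, X i j ∈ F)
    (hlev : ∀ i, ∀ j ≤ S i, ∀ ε : ℝ, 0 < ε → ∃ w ∈ F, (j = 0 → w = 0) ∧
      v.Ge (ν - (p : ℝ) ^ j * ρ i - ε) (X i j - w ^ p))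
    (hind : ∀ c : ι → Ω, (∀ i, c i ∈ F) → ∀ t : ℝ,
      PG p v F t (∑ i, X i (S i) * c i ^ p ^ S i) →
      ∀ i, Gt v (t - ν + (p : ℝ) ^ S i * ρ i) (c i ^ p ^ S i))
    (hB : ∀ ε : ℝ, 0 < ε → NrV v F ρ u fun θ => ∃ g ∈ F, v.Ge (ν - ε)
      (a₀ + ∑ i, ∑ j ∈ range (S i + 1), X i j * θ i ^ p ^ j - g ^ p)) :
    ∃ L : ℕ, ∀ i, ∀ l : ℕ, L < l →
      Nr v F (ρ i) (u i) fun θ => v.Ge (ρ i - l * σ) (Φ l θ) := by
  obtain ⟨L, hL⟩ := propHV p hΦ.toHSd (Wn.of_arc hΦ) ho hu ha₀ S X hX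
    (fun i j hj n hn => null_of_arc p hΦ (hX i j hj) (hlev i j hj) n hn)
    (fun i j hj => hlev i j hj.le) hind hB
  refine ⟨L, fun i l hl => ?_⟩
  have hl0 : l ≠ 0 := by omega
  obtain ⟨m, hm, h1⟩ := hΦ.str l hl0
  refine ⟨(l * σ - m) / 2, by linarith, fun θ hθ h2 h0 => ?_⟩
  refine le_of_forall_pos_le_add fun ε hε => ?_
  obtain ⟨θ', hθ', h3, h4⟩ := ((hL i l hl ε hε).and
    (Nr.near (half_pos (sub_pos.2 hm)))).exists (hu i)
  have h5 : v.Ge (ρ i - l * σ) (Φ l (θ - θ')) := by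
    refine (h1 _ (sub_mem hθ hθ') (ρ i - (l * σ - m) / 2) ?_).mono (by linarith)
    have e1 : θ - θ' = (u i - θ') - (u i - θ) := by ring
    rw [e1]
    exact h4.sub h2
  have h6 : v.Ge (ρ i - l * σ - ε) (Φ l θ) := by
    have e1 : Φ l θ = Φ l (θ - θ') + Φ l θ' := by
      rw [hΦ.sub l hθ hθ']
      ring
    rw [e1]
    exact (h5.mono (by linarith)).add h3
  have := h6 h0
  linarith

omit [Fintype ι] in
/-- **Proposition H, one variable, any arc**: output of `soc`. -/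
theorem propHS (hΦ : HSd F Φ) (hn : Wn v F σ Φ) (ho : Oi v F σ Φ) {ρ : ℝ} {u : Ω}
    (hu : Lim v F ρ u) {ν : ℝ} {e a₀ : Ω} (s : ℕ) (he : e ∈ F) (ha₀ : a₀ ∈ F) (A : ℕ → Ω)
    (hA : ∀ i ≤ s, A i ∈ F) (hen : v.Ge (ν - ρ) e)
    (hA0 : ∀ i < s, ∀ ε : ℝ, 0 < ε → ∃ g ∈ F,
      v.Ge (ν - (p ^ (i + 1) : ℕ) * ρ - ε) (A i - g ^ p))
    (hde : ∀ n : ℕ, n ≠ 0 → Gt v (ν - ρ - n * σ) (Φ n e))
    (hdA : ∀ i ≤ s, ∀ n : ℕ, n ≠ 0 → PG p v F (ν - (p ^ (i + 1) : ℕ) * ρ - n * σ) (Φ n (A i)))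
    (hs : ¬ PG p v F (ν - (p ^ (s + 1) : ℕ) * ρ) (A s))
    (hB : ∀ ε : ℝ, 0 < ε → Nr v F ρ u fun θ => ∃ g ∈ F, v.Ge (ν - ε)
      (a₀ + e * θ + ∑ i ∈ range (s + 1), A i * θ ^ p ^ (i + 1) - g ^ p)) :
    ∃ L : ℕ, ∀ l : ℕ, L < l → ∀ ε : ℝ, 0 < ε →
      Nr v F ρ u fun θ => v.Ge (ρ - l * σ - ε) (Φ l θ) := by
  set X : Unit → ℕ → Ω := fun _ j => if j = 0 then e else A (j - 1) with hXd
  have hX0 : ∀ i, X i 0 = e := fun i => by rw [hXd]; exact if_pos rfl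
  have hXs : ∀ i j, X i (j + 1) = A j := fun i j => by
    rw [hXd]
    dsimp only
    rw [if_neg (Nat.succ_ne_zero j), Nat.add_sub_cancel]
  refine (propHV p (ι := Unit) hΦ hn ho (ρ := fun _ => ρ) (u := fun _ => u)
    (fun _ => hu) (ν := ν) ha₀ (fun _ => s + 1) X ?_ ?_ ?_ ?_ ?_).imp
    fun L hL l hl ε hε => hL () l hl ε hε
  · intro i j hj
    rcases j with _ | j
    · rwa [hX0 i]
    · rw [hXs i]
      exact hA j (by omega)
  · intro i j hj n hn0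
    rcases j with _ | j
    · rw [hX0 i]
      refine ⟨0, F.zero_mem, fun _ => rfl, ?_⟩
      rw [zero_pow hp.out.ne_zero, sub_zero]
      exact (hde n hn0).mono (by simp)
    · rw [hXs i]
      obtain ⟨w, hw, h1⟩ := hdA j (by omega) n hn0
      refine ⟨w, hw, fun h0 => absurd h0 (Nat.succ_ne_zero j), h1.mono (le_of_eq ?_)⟩
      push_cast
      ring
  · intro i j hj ε hε
    rcases j with _ | j
    · rw [hX0 i]
      refine ⟨0, F.zero_mem, fun _ => rfl, ?_⟩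
      rw [zero_pow hp.out.ne_zero, sub_zero]
      refine hen.mono ?_
      simp only [pow_zero, one_mul]
      linarith
    · rw [hXs i]
      obtain ⟨w, hw, h1⟩ := hA0 j (by omega) ε hε
      refine ⟨w, hw, fun h0 => absurd h0 (Nat.succ_ne_zero j), h1.mono (le_of_eq ?_)⟩
      push_cast
      ring
  · intro c hc t ht i
    simp only [Finset.univ_unique, Finset.sum_singleton, hXs] at ht
    have h1 := ind_of_not_pg p (Nat.succ_ne_zero s) hs (hc ()) ht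
    refine h1.mono (le_of_eq ?_)
    push_cast
    ring
  · intro ε hε
    obtain ⟨δ, hδ, h1⟩ := hB ε hε
    refine ⟨δ, hδ, fun θ hθ h2 => ?_⟩
    obtain ⟨g, hg, h3⟩ := h1 (θ ()) (hθ ()) (h2 ())
    refine ⟨g, hg, ?_⟩
    have e1 : a₀ + ∑ i : Unit, ∑ j ∈ range (s + 1 + 1), X i j * θ i ^ p ^ j =
        a₀ + e * θ () + ∑ i ∈ range (s + 1), A i * θ () ^ p ^ (i + 1) := by
      rw [Finset.univ_unique, Finset.sum_singleton, Finset.sum_range_succ' _ (s + 1)]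
      simp only [hXs, hX0, pow_zero, pow_one]
      rw [add_assoc, add_comm (e * θ ())]
    rwa [e1]

end Main

end Pool.Agent.TWII
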